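import Mathlib

namespace Pool.Agent.Y376.Packing

variable {K : Type*} [Field K] [Fintype K] [DecidableEq K]

/-- An affine map preserving the set of squares takes the value zero at a square. -/
theorem affine_squares {a c : K} (ha : a ≠ 0) (h : ∀ z : K, IsSquare (a * (z * z) + c)) :
    ∃ y : K, IsSquare y ∧ a * y + c = 0 := by
  classical
  set S : Finset K := Finset.univ.filter (fun y => IsSquare y) with hS
  have hmaps : Set.MapsTo (fun y => a * y + c) (S : Set K) (S : Set K) := by
    intro y hy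
    simp only [hS, Finset.coe_filter, Finset.mem_univ, true_and, Set.mem_ofPred_eq] at hy ⊢
    obtain ⟨z, rfl⟩ := hy
    exact h z
  have hinj : Set.InjOn (fun y => a * y + c) (S : Set K) := by
    intro y _ y' _ hyy
    simp only at hyy
    exact mul_left_cancel₀ ha (add_right_cancel hyy)
  have hsurj := Finset.surjOn_of_injOn_of_card_le _ hmaps hinj le_rfl
  obtain ⟨y, hy, hy0⟩ := hsurj (show (0 : K) ∈ (S : Set K) by simp [hS])
  simp only [hS, Finset.coe_filter, Finset.mem_univ, true_and, Set.mem_ofPred_eq] at hy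
  exact ⟨y, hy, hy0⟩

/-- The period subgroup of a function. -/
def per (G : K → ℤ) : AddSubgroup K where
  carrier := {a | ∀ z, G (z + a) = G z}
  zero_mem' := by intro z; simp
  add_mem' := by
    intro a b ha hb z
    rw [← add_assoc, hb, ha]
  neg_mem' := by
    intro a ha z
    rw [← ha (z + -a)]
    simp

omit [Fintype K] [DecidableEq K] in
theorem mem_per {G : K → ℤ} {a : K} : a ∈ per G ↔ ∀ z, G (z + a) = G z := Iff.rfl

omit [DecidableEq K] in
theorem card_per (hodd : Odd (Fintype.card K)) {G : K → ℤ} (hG : per G ≠ ⊤) :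
    3 * Nat.card (per G) ≤ Fintype.card K := by
  have h1 := AddSubgroup.card_mul_index (per G)
  rw [Nat.card_eq_fintype_card (α := K)] at h1
  have h2 : (per G).index ≠ 1 := by
    rwa [Ne, AddSubgroup.index_eq_one]
  have h3 : (per G).index ≠ 0 := by
    intro h
    rw [h, mul_zero] at h1
    exact Fintype.card_ne_zero h1.symm
  have h4 : (per G).index ≠ 2 := by
    intro h
    rw [h] at h1
    rw [← h1] at hodd
    rw [Nat.odd_mul] at hodd
    exact absurd hodd.2 (by decide)
  have h5 : 3 ≤ (per G).index := by omega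
  calc 3 * Nat.card (per G) ≤ (per G).index * Nat.card (per G) := Nat.mul_le_mul_right _ h5
    _ = Fintype.card K := by rw [mul_comm]; exact h1

theorem exists_p (hodd : Odd (Fintype.card K)) (h2 : (2 : K) ≠ 0) {F H : K → ℤ}
    (hF : per F ≠ ⊤) (hH : per H ≠ ⊤) :
    ∃ p : K, p ≠ 0 ∧ 2 * p ∉ per F ∧ 2 / p ∉ per H := by
  classical
  by_contra hcon
  push Not at hcon
  have hA := card_per hodd hF
  have hB := card_per hodd hH
  set A : Finset K := Finset.univ.filter (fun x => x ∈ per F) with hAdef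
  set B : Finset K := Finset.univ.filter (fun x => x ∈ per H) with hBdef
  have hAc : A.card = Nat.card (per F) := by
    rw [Nat.card_eq_fintype_card, hAdef]
    exact (Fintype.card_subtype _).symm
  have hBc : B.card = Nat.card (per H) := by
    rw [Nat.card_eq_fintype_card, hBdef]
    exact (Fintype.card_subtype _).symm
  have h0A : (0 : K) ∈ A := by simp [hAdef, (per F).zero_mem]
  have h0B : (0 : K) ∈ B := by simp [hBdef, (per H).zero_mem]
  have hsub : (Finset.univ.erase (0 : K)) ⊆
      (A.erase 0).image (fun x => x / 2) ∪ (B.erase 0).image (fun x => 2 / x) := by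
    intro p hp
    rw [Finset.mem_erase] at hp
    rw [Finset.mem_union, Finset.mem_image, Finset.mem_image]
    by_cases h : 2 * p ∈ per F
    · left
      refine ⟨2 * p, ?_, by field_simp⟩
      rw [Finset.mem_erase]
      exact ⟨mul_ne_zero h2 hp.1, by simpa [hAdef] using h⟩
    · right
      refine ⟨2 / p, ?_, by field_simp⟩
      rw [Finset.mem_erase]
      exact ⟨div_ne_zero h2 hp.1, by simpa [hBdef] using hcon p hp.1 h⟩
  have hc := Finset.card_le_card hsub
  have hc2 := Finset.card_union_le ((A.erase 0).image (fun x => x / 2))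
    ((B.erase 0).image (fun x => 2 / x))
  have hc3 : ((A.erase 0).image (fun x => x / 2)).card ≤ (A.erase 0).card := Finset.card_image_le
  have hc4 : ((B.erase 0).image (fun x => 2 / x)).card ≤ (B.erase 0).card := Finset.card_image_le
  rw [Finset.card_erase_of_mem (Finset.mem_univ _), Finset.card_univ] at hc
  rw [Finset.card_erase_of_mem h0A] at hc3
  rw [Finset.card_erase_of_mem h0B] at hc4
  have hA1 : 0 < A.card := Finset.card_pos.mpr ⟨0, h0A⟩
  have hB1 : 0 < B.card := Finset.card_pos.mpr ⟨0, h0B⟩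
  have hq : 0 < Fintype.card K := Fintype.card_pos
  omega

theorem exists_data (hodd : Odd (Fintype.card K)) (h2 : (2 : K) ≠ 0) (h5 : 5 ≤ Fintype.card K)
    {n : K} (hn : ∀ r : K, r ^ 2 ≠ n) :
    ∃ p p1 t1 r1 t2 p2 s2 t0 : K, p ≠ 0 ∧ p1 ≠ 0 ∧ r1 ≠ 0 ∧ s2 ≠ 0 ∧ t2 ≠ 0 ∧ t0 ≠ 0 ∧
      t0 ^ 2 ≠ t2 ^ 2 ∧
      t1 ^ 2 - n * p1 ^ 2 = n * r1 ^ 2 ∧ (1 - t1) ^ 2 - n * p ^ 2 = n * r1 ^ 2 ∧
      t2 ^ 2 - n * p2 ^ 2 = - n ^ 2 * s2 ^ 2 ∧ 1 - n * (p - p2) ^ 2 = - n ^ 2 * s2 ^ 2 := by
  have hn0 : n ≠ 0 := by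
    rintro rfl
    exact hn 0 (by ring)
  have hnsq : ¬ IsSquare n := by
    rintro ⟨r, hr⟩
    exact hn r (by rw [hr]; ring)
  have hnz : ∀ z : K, 1 - n * z ^ 2 ≠ 0 := by
    intro z h
    by_cases hz : z = 0
    · rw [hz] at h; simp at h
    · apply hn (1 / z)
      field_simp
      linear_combination h
  have hny : ∀ y : K, y ^ 2 - n ≠ 0 := by
    intro y h
    exact hn y (by linear_combination h)
  set F : K → ℤ := fun z => quadraticChar K (1 - n * z ^ 2) with hF
  set H : K → ℤ := fun y => quadraticChar K (y ^ 2 - n) with hH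
  have hχn : quadraticChar K n = -1 := by
    rw [quadraticChar_neg_one_iff_not_isSquare]; exact hnsq
  have hFper : per F ≠ ⊤ := by
    intro htop
    have hconst : ∀ z, F z = 1 := by
      intro z
      have := mem_per.mp (show z ∈ per F by rw [htop]; trivial) 0
      rw [zero_add] at this
      rw [this]
      simp [hF]
    obtain ⟨y, ⟨w, hw⟩, hy0⟩ := affine_squares (K := K) (a := -n) (c := 1) (neg_ne_zero.mpr hn0) (by
      intro z
      have := hconst z
      simp only [hF] at this
      rw [quadraticChar_one_iff_isSquare (hnz z)] at this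
      have e : -n * (z * z) + 1 = 1 - n * z ^ 2 := by ring
      rw [e]; exact this)
    apply hnz w
    rw [hw] at hy0
    linear_combination hy0
  have hHper : per H ≠ ⊤ := by
    intro htop
    have hconst : ∀ z, H z = H 0 := by
      intro z
      have := mem_per.mp (show z ∈ per H by rw [htop]; trivial) 0
      rwa [zero_add] at this
    rcases quadraticChar_dichotomy (hny 0) with h0 | h0
    · obtain ⟨y, ⟨w, hw⟩, hy0⟩ := affine_squares (K := K) (a := 1) (c := -n) one_ne_zero (by
        intro z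
        have := hconst z
        simp only [hH] at this
        rw [h0, quadraticChar_one_iff_isSquare (hny z)] at this
        have e : 1 * (z * z) + -n = z ^ 2 - n := by ring
        rw [e]; exact this)
      apply hny w
      rw [hw] at hy0
      linear_combination hy0
    · obtain ⟨y, ⟨w, hw⟩, hy0⟩ := affine_squares (K := K) (a := n) (c := -n ^ 2) hn0 (by
        intro z
        have := hconst z
        simp only [hH] at this
        rw [h0] at this
        have e : n * (z * z) + -n ^ 2 = n * (z ^ 2 - n) := by ring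
        rw [e]
        rw [← quadraticChar_one_iff_isSquare (mul_ne_zero hn0 (hny z)), map_mul, this, hχn]
        norm_num)
      apply hny w
      rw [hw] at hy0
      have : n * (w ^ 2 - n) = 0 := by linear_combination hy0
      rcases mul_eq_zero.mp this with h | h
      · exact absurd h hn0
      · exact h
  obtain ⟨p, hp, hpF, hpH⟩ := exists_p hodd h2 hFper hHper
  rw [mem_per] at hpF hpH
  push Not at hpF hpH
  obtain ⟨z, hz⟩ := hpF
  obtain ⟨y, hy⟩ := hpH
  -- choose p1, t2
  set p1 := z + p with hp1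
  set t2 := p * y + 1 with ht2
  have hprod : ∀ a b : K, a ≠ 0 → b ≠ 0 → quadraticChar K a ≠ quadraticChar K b →
      quadraticChar K (a * b) = -1 := by
    intro a b ha hb hab
    rw [map_mul]
    rcases quadraticChar_dichotomy ha with h | h <;> rcases quadraticChar_dichotomy hb with h' | h' <;>
      rw [h, h'] at hab ⊢ <;> simp at hab ⊢
  have hp10 : p1 ≠ 0 := by
    intro h
    apply hz
    have hz' : z = -p := by linear_combination h - hp1
    simp only [hF]
    rw [hz']
    congr 1
    ring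
  have ht20 : t2 ≠ 0 := by
    intro h
    apply hy
    have hy' : y = -(1 / p) := by
      field_simp
      linear_combination h
    simp only [hH]
    rw [hy']
    congr 1
    field_simp
    ring
  have h4 : quadraticChar K (4 : K) = 1 := by
    rw [quadraticChar_one_iff_isSquare]
    · exact ⟨2, by norm_num⟩
    · have : (4 : K) = 2 * 2 := by norm_num
      rw [this]; exact mul_ne_zero h2 h2
  have h40 : (4 : K) ≠ 0 := by
    have : (4 : K) = 2 * 2 := by norm_num
    rw [this]; exact mul_ne_zero h2 h2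
  -- first family
  obtain ⟨t1, ht1⟩ : ∃ t1 : K, 2 * t1 = 1 - n * p ^ 2 + n * p1 ^ 2 :=
    ⟨(1 - n * p ^ 2 + n * p1 ^ 2) / 2, by field_simp⟩
  have hid1 : 4 * (t1 ^ 2 - n * p1 ^ 2) = (1 - n * (z + 2 * p) ^ 2) * (1 - n * z ^ 2) := by
    have e : 4 * t1 ^ 2 = (1 - n * p ^ 2 + n * p1 ^ 2) ^ 2 := by rw [← ht1]; ring
    have e2 : z = p1 - p := by rw [hp1]; ring
    rw [mul_sub, e, e2]
    ring
  have hχ1 : quadraticChar K (t1 ^ 2 - n * p1 ^ 2) = -1 := by
    have h6 := hprod _ _ (hnz (z + 2 * p)) (hnz z) hz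
    rw [← hid1, map_mul, h4, one_mul] at h6
    exact h6
  have hne1 : t1 ^ 2 - n * p1 ^ 2 ≠ 0 := by
    intro h
    rw [h] at hχ1
    simp at hχ1
  obtain ⟨w1, hw1⟩ : IsSquare (n * (t1 ^ 2 - n * p1 ^ 2)) := by
    rw [← quadraticChar_one_iff_isSquare (mul_ne_zero hn0 hne1), map_mul, hχ1, hχn]
    norm_num
  have hw10 : w1 ≠ 0 := by
    rintro rfl
    rw [mul_zero] at hw1
    exact (mul_ne_zero hn0 hne1) hw1
  -- second family
  obtain ⟨p2, hp2⟩ : ∃ p2 : K, 2 * n * p * p2 = t2 ^ 2 - 1 + n * p ^ 2 :=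
    ⟨(t2 ^ 2 - 1 + n * p ^ 2) / (2 * n * p), by field_simp⟩
  have hid2 : 4 * (n * n) * (p * p) * (n * p2 ^ 2 - t2 ^ 2) =
      n * ((p * p) * (p * p)) * (((y + 2 / p) ^ 2 - n) * (y ^ 2 - n)) := by
    have e : 4 * (n * n) * (p * p) * (n * p2 ^ 2) = n * (t2 ^ 2 - 1 + n * p ^ 2) ^ 2 := by
      rw [← hp2]; ring
    have e3 : p * p * ((y + 2 / p) ^ 2 - n) = (t2 + 1) ^ 2 - n * p ^ 2 := by
      rw [ht2]; field_simp; ring
    have e4 : p * p * (y ^ 2 - n) = (t2 - 1) ^ 2 - n * p ^ 2 := by
      rw [ht2]; ring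
    have e5 : n * ((p * p) * (p * p)) * (((y + 2 / p) ^ 2 - n) * (y ^ 2 - n)) =
        n * (p * p * ((y + 2 / p) ^ 2 - n)) * (p * p * (y ^ 2 - n)) := by ring
    rw [e5, e3, e4, mul_sub, e]
    ring
  have hχ2 : quadraticChar K (n * p2 ^ 2 - t2 ^ 2) = 1 := by
    have h6 := hprod _ _ (hny (y + 2 / p)) (hny y) hy
    have h7 := congrArg (quadraticChar K) hid2
    have hsqc : ∀ a : K, a ≠ 0 → quadraticChar K (a * a) = 1 := by
      intro a ha
      rw [quadraticChar_one_iff_isSquare (mul_ne_zero ha ha)]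
      exact ⟨a, rfl⟩
    rw [map_mul, map_mul, map_mul, h4, hsqc n hn0, hsqc p hp, map_mul, map_mul, h6,
      hsqc (p * p) (mul_ne_zero hp hp), hχn] at h7
    simpa using h7
  have hne2 : n * p2 ^ 2 - t2 ^ 2 ≠ 0 := by
    intro h
    rw [h] at hχ2
    simp at hχ2
  obtain ⟨w2, hw2⟩ : IsSquare (n * p2 ^ 2 - t2 ^ 2) := by
    rwa [← quadraticChar_one_iff_isSquare hne2]
  have hw20 : w2 ≠ 0 := by
    rintro rfl
    rw [mul_zero] at hw2
    exact hne2 hw2
  -- t0
  obtain ⟨t0, ht0⟩ : ∃ t0 : K, t0 ∉ ({0, t2, -t2} : Finset K) := by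
    by_contra hcon
    push Not at hcon
    have h6 : (Finset.univ : Finset K) ⊆ {0, t2, -t2} := fun x _ => hcon x
    have h7 := Finset.card_le_card h6
    have h8 : ({0, t2, -t2} : Finset K).card ≤ 3 := Finset.card_le_three
    rw [Finset.card_univ] at h7
    omega
  simp only [Finset.mem_insert, Finset.mem_singleton, not_or] at ht0
  refine ⟨p, p1, t1, w1 / n, t2, p2, w2 / n, t0, hp, hp10, div_ne_zero hw10 hn0,
    div_ne_zero hw20 hn0, ht20, ht0.1, ?_, ?_, ?_, ?_, ?_⟩
  · intro h
    rcases sq_eq_sq_iff_eq_or_eq_neg.mp h with h | h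
    · exact ht0.2.1 h
    · exact ht0.2.2 h
  · field_simp
    linear_combination hw1
  · field_simp
    linear_combination hw1 - n * ht1
  · field_simp
    linear_combination -hw2
  · field_simp
    linear_combination -hw2 + hp2

end Pool.Agent.Y376.Packing
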