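import Pool.Agent.Y376.Packing.General

namespace Pool.Agent.Y376.Packing

open Module QuadraticAlgebra

variable {K : Type*} [Field K] {n : K} [hn : Fact (∀ r : K, r ^ 2 ≠ n + 0 * r)]

/-- conjugation as a `K`-linear map -/
def conjL : QuadraticAlgebra K n 0 →ₗ[K] QuadraticAlgebra K n 0 where
  toFun := star
  map_add' := star_add
  map_smul' := by
    intro r x
    ext <;> simp

omit hn in
theorem star_smul' (r : K) (x : QuadraticAlgebra K n 0) : star (r • x) = r • star x := by
  ext <;> simp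

/-- The line `y = c x + d x̄`. -/
def gr (c d : QuadraticAlgebra K n 0) :
    Submodule K (QuadraticAlgebra K n 0 × QuadraticAlgebra K n 0) :=
  LinearMap.range (LinearMap.prod LinearMap.id
    (LinearMap.mulLeft K c + (LinearMap.mulLeft K d).comp conjL))

/-- The line spanned by `(x, e x)` and `(0, u x)`. -/
def mm (x e u : QuadraticAlgebra K n 0) :
    Submodule K (QuadraticAlgebra K n 0 × QuadraticAlgebra K n 0) :=
  LinearMap.range (LinearMap.prod ((LinearMap.toSpanSingleton K _ x).comp (LinearMap.fst K K K))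
    ((LinearMap.toSpanSingleton K _ (e * x)).comp (LinearMap.fst K K K) +
      (LinearMap.toSpanSingleton K _ (u * x)).comp (LinearMap.snd K K K)))

/-- The line `x = 0`. -/
def vert (n : K) : Submodule K (QuadraticAlgebra K n 0 × QuadraticAlgebra K n 0) :=
  LinearMap.range (LinearMap.inr K (QuadraticAlgebra K n 0) (QuadraticAlgebra K n 0))

omit hn in
theorem mem_gr {c d : QuadraticAlgebra K n 0} {v : QuadraticAlgebra K n 0 × QuadraticAlgebra K n 0} :
    v ∈ gr c d ↔ v.2 = c * v.1 + d * star v.1 := by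
  obtain ⟨a, b⟩ := v
  constructor
  · rintro ⟨y, hy⟩
    have h1 : y = a := congrArg Prod.fst hy
    have h2 : c * y + d * star y = b := congrArg Prod.snd hy
    subst h1
    exact h2.symm
  · intro h
    exact ⟨a, Prod.ext rfl h.symm⟩

omit hn in
theorem mem_mm {x e u : QuadraticAlgebra K n 0} {v : QuadraticAlgebra K n 0 × QuadraticAlgebra K n 0} :
    v ∈ mm x e u ↔ ∃ s t : K, v.1 = s • x ∧ v.2 = s • (e * x) + t • (u * x) := by
  obtain ⟨a, b⟩ := v
  constructor
  · rintro ⟨⟨s, t⟩, hy⟩
    have h1 : s • x = a := congrArg Prod.fst hy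
    have h2 : s • (e * x) + t • (u * x) = b := congrArg Prod.snd hy
    exact ⟨s, t, h1.symm, h2.symm⟩
  · rintro ⟨s, t, h1, h2⟩
    exact ⟨(s, t), Prod.ext h1.symm h2.symm⟩

omit hn in
theorem mem_vert {v : QuadraticAlgebra K n 0 × QuadraticAlgebra K n 0} :
    v ∈ vert n ↔ v.1 = 0 := by
  obtain ⟨a, b⟩ := v
  constructor
  · rintro ⟨y, h⟩
    exact (congrArg Prod.fst h).symm
  · intro h
    exact ⟨b, Prod.ext h.symm rfl⟩

omit hn in
theorem finrank_L : finrank K (QuadraticAlgebra K n 0) = 2 := QuadraticAlgebra.finrank_eq_two n 0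

omit hn in
theorem finrank_gr (c d : QuadraticAlgebra K n 0) : finrank K (gr c d) = 2 := by
  rw [gr, LinearMap.finrank_range_of_inj, finrank_L]
  intro x y h
  exact congrArg Prod.fst h

omit hn in
theorem finrank_vert : finrank K (vert n) = 2 := by
  rw [vert, LinearMap.finrank_range_of_inj, finrank_L]
  intro x y h
  simpa using h

theorem finrank_mm {x e u : QuadraticAlgebra K n 0} (hx : x ≠ 0) (hu : u ≠ 0) :
    finrank K (mm x e u) = 2 := by
  rw [mm, LinearMap.finrank_range_of_inj]
  · simp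
  · rw [← LinearMap.ker_eq_bot, LinearMap.ker_eq_bot']
    rintro ⟨s, t⟩ h
    have h1 : s • x = 0 := congrArg Prod.fst h
    have h2 : s • (e * x) + t • (u * x) = 0 := congrArg Prod.snd h
    simp only [smul_eq_zero, hx, or_false] at h1
    subst h1
    simp only [zero_smul, zero_add, smul_eq_zero, mul_eq_zero, hx, hu, or_self, or_false] at h2
    simp [h2]

theorem n_not_sq (r : K) : r ^ 2 ≠ n := by
  have := hn.out r
  simpa using this

theorem norm_ne_zero {z : QuadraticAlgebra K n 0} (hz : z ≠ 0) : QuadraticAlgebra.norm z ≠ 0 := by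
  rwa [Ne, norm_eq_zero_iff_eq_zero]

omit hn in
theorem norm_smul' (r : K) (z : QuadraticAlgebra K n 0) : norm (r • z) = r ^ 2 * norm z := by
  simp only [norm_def, re_smul, im_smul, smul_eq_mul]
  ring

/-- `δ x̄` is never a `K`-multiple of `x`. -/
theorem key_indep {δ : QuadraticAlgebra K n 0} (hδ : norm δ = n) {a : QuadraticAlgebra K n 0}
    (ha : a ≠ 0) (l : K) : δ * star a ≠ l • a := by
  intro h
  have h1 := congrArg QuadraticAlgebra.norm h
  rw [map_mul, QuadraticAlgebra.norm_star, hδ, norm_smul'] at h1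
  exact n_not_sq (n := n) l (mul_right_cancel₀ (norm_ne_zero ha) h1).symm

omit hn in
theorem exUnique {a g : QuadraticAlgebra K n 0} (ha : a ≠ 0) (hg : ∀ l : K, g ≠ l • a)
    (b : QuadraticAlgebra K n 0) : ∃! tr : K × K, b = tr.1 • a + tr.2 • g := by
  let φ : K × K →ₗ[K] QuadraticAlgebra K n 0 :=
    (LinearMap.toSpanSingleton K _ a).comp (LinearMap.fst K K K) +
      (LinearMap.toSpanSingleton K _ g).comp (LinearMap.snd K K K)
  have hφ : ∀ tr, φ tr = tr.1 • a + tr.2 • g := by
    intro tr; simp [φ]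
  have hinj : Function.Injective φ := by
    rw [← LinearMap.ker_eq_bot, LinearMap.ker_eq_bot']
    rintro ⟨t, r⟩ h
    rw [hφ] at h
    simp only at h
    have hr : r = 0 := by
      by_contra hr
      apply hg (-(t / r))
      have : r • g = r • (-(t / r) • a) := by
        rw [smul_smul, mul_neg, mul_div_cancel₀ _ hr, neg_smul]
        exact eq_neg_of_add_eq_zero_right h
      exact (smul_right_injective _ hr) this
    subst hr
    simp only [zero_smul, add_zero, smul_eq_zero, ha, or_false] at h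
    simp [h]
  have hsurj : Function.Surjective φ := by
    rw [← LinearMap.injective_iff_surjective_of_finrank_eq_finrank]
    · exact hinj
    · rw [finrank_L]; simp
  obtain ⟨tr, htr⟩ := hsurj b
  refine ⟨tr, by simp only; rw [← hφ, htr], fun tr' h => hinj ?_⟩
  rw [htr, hφ]
  exact h.symm

omit hn in
theorem mm_smul {x e u : QuadraticAlgebra K n 0} {s : K} (hs : s ≠ 0) :
    mm (s • x) e u = mm x e u := by
  ext v
  rw [mem_mm, mem_mm]
  constructor
  · rintro ⟨s', t', h1, h2⟩
    refine ⟨s' * s, t' * s, by rw [h1, smul_smul], ?_⟩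
    rw [h2, mul_smul_comm, mul_smul_comm, smul_smul, smul_smul]
  · rintro ⟨s', t', h1, h2⟩
    refine ⟨s' / s, t' / s, ?_, ?_⟩
    · rw [h1, smul_smul, div_mul_cancel₀ _ hs]
    · rw [h2, mul_smul_comm, mul_smul_comm, smul_smul, smul_smul, div_mul_cancel₀ _ hs,
        div_mul_cancel₀ _ hs]

/-- The spread `S(u, e)`. -/
def blk (δ u e : QuadraticAlgebra K n 0) :
    Set (Submodule K (QuadraticAlgebra K n 0 × QuadraticAlgebra K n 0)) :=
  {m | (∃ t r : K, r ≠ 0 ∧ m = gr (t • u + e) (r • (δ * star u))) ∨ ∃ x, x ≠ 0 ∧ m = mm x e u}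

theorem isSpread_blk {δ u e : QuadraticAlgebra K n 0} (hδ : norm δ = n) (hu : u ≠ 0) :
    IsSpread K (QuadraticAlgebra K n 0 × QuadraticAlgebra K n 0) (blk δ u e) := by
  refine ⟨?_, ?_⟩
  · rintro m (⟨t, r, -, rfl⟩ | ⟨x, hx, rfl⟩)
    · exact finrank_gr _ _
    · exact finrank_mm hx hu
  rintro ⟨a, b⟩ hv
  by_cases ha : a = 0
  · subst ha
    have hb : b ≠ 0 := by
      rintro rfl; exact hv rfl
    refine ⟨mm (b / u) e u, ⟨Or.inr ⟨b / u, div_ne_zero hb hu, rfl⟩, ?_⟩, ?_⟩
    · rw [mem_mm]
      refine ⟨0, 1, by simp, ?_⟩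
      simp only [zero_smul, one_smul, zero_add]
      field_simp
    · rintro m ⟨⟨t, r, -, rfl⟩ | ⟨x, hx, rfl⟩, hm⟩
      · rw [mem_gr] at hm
        simp only [mul_zero, star_zero, add_zero] at hm
        exact absurd hm hb
      · rw [mem_mm] at hm
        obtain ⟨s, t, h1, h2⟩ := hm
        simp only at h1 h2
        have hs : s = 0 := by
          rcases smul_eq_zero.mp h1.symm with h | h
          · exact h
          · exact absurd h hx
        subst hs
        rw [zero_smul, zero_add] at h2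
        have ht : t ≠ 0 := by
          rintro rfl; rw [zero_smul] at h2; exact hb h2
        have : b / u = t • x := by
          rw [h2, ← mul_smul_comm, mul_comm u, mul_div_assoc, div_self hu, mul_one]
        rw [this, mm_smul ht]
  · have ha' : u * a ≠ 0 := mul_ne_zero hu ha
    obtain ⟨⟨t, r⟩, h, huniq⟩ := exUnique ha' (key_indep hδ ha') (b - e * a)
    simp only at h
    have huniq' : ∀ t' r' : K, b - e * a = t' • (u * a) + r' • (δ * star (u * a)) →
        t' = t ∧ r' = r := by
      intro t' r' h'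
      have := huniq (t', r') h'
      simpa using this
    have hgr : ∀ t' r' : K, ((a, b) : QuadraticAlgebra K n 0 × QuadraticAlgebra K n 0) ∈
        gr (t' • u + e) (r' • (δ * star u)) ↔
          b - e * a = t' • (u * a) + r' • (δ * star (u * a)) := by
      intro t' r'
      rw [mem_gr]
      simp only [star_mul', add_mul, smul_mul_assoc]
      constructor
      · intro h; rw [h]; simp only [mul_assoc]; ring
      · intro h
        have : b = e * a + (b - e * a) := by ring
        rw [this, h]; simp only [mul_assoc]; ring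
    have hmm : ∀ x : QuadraticAlgebra K n 0, x ≠ 0 →
        ((a, b) : QuadraticAlgebra K n 0 × QuadraticAlgebra K n 0) ∈ mm x e u →
        ∃ s : K, s ≠ 0 ∧ a = s • x ∧ r = 0 := by
      intro x hx hm
      rw [mem_mm] at hm
      obtain ⟨s, t', h1, h2⟩ := hm
      simp only at h1 h2
      have hs : s ≠ 0 := by
        rintro rfl; rw [zero_smul] at h1; exact ha h1
      refine ⟨s, hs, h1, ?_⟩
      have h3 : b - e * a = (t' / s) • (u * a) + (0 : K) • (δ * star (u * a)) := by
        rw [h2, h1, mul_smul_comm, mul_smul_comm, smul_smul, div_mul_cancel₀ _ hs, zero_smul,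
          add_zero, add_sub_cancel_left]
      exact (huniq' _ _ h3).2.symm
    by_cases hr : r = 0
    · subst hr
      refine ⟨mm a e u, ⟨Or.inr ⟨a, ha, rfl⟩, ?_⟩, ?_⟩
      · rw [mem_mm]
        refine ⟨1, t, by simp, ?_⟩
        simp only [one_smul]
        have : b = e * a + (b - e * a) := by ring
        rw [this, h, zero_smul, add_zero]
      · rintro m ⟨⟨t', r', hr', rfl⟩ | ⟨x, hx, rfl⟩, hm⟩
        · rw [hgr] at hm
          exact absurd (huniq' _ _ hm).2 hr'
        · obtain ⟨s, hs, h1, -⟩ := hmm x hx hm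
          rw [h1, mm_smul hs]
    · refine ⟨gr (t • u + e) (r • (δ * star u)), ⟨Or.inl ⟨t, r, hr, rfl⟩, (hgr t r).mpr h⟩, ?_⟩
      rintro m ⟨⟨t', r', hr', rfl⟩ | ⟨x, hx, rfl⟩, hm⟩
      · rw [hgr] at hm
        obtain ⟨rfl, rfl⟩ := huniq' _ _ hm
        rfl
      · obtain ⟨s, hs, h1, h0⟩ := hmm x hx hm
        exact absurd h0 hr

/-- The spread `T_X`. -/
def tX (δ : QuadraticAlgebra K n 0) (X : Set K) :
    Set (Submodule K (QuadraticAlgebra K n 0 × QuadraticAlgebra K n 0)) :=
  {m | m = vert n ∨ (∃ t r : K, t ^ 2 - n * r ^ 2 ∈ X ∧ m = gr (t • 1) (r • δ)) ∨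
    ∃ p s : K, n * (p ^ 2 - n * s ^ 2) ∉ X ∧ m = gr (p • ω) (s • (ω * δ))}

omit hn in
theorem norm_add_smul_omega (x y : K) :
    QuadraticAlgebra.norm (x • (1 : QuadraticAlgebra K n 0) + y • ω) = x ^ 2 - n * y ^ 2 := by
  simp [norm_def]
  ring

theorem norm_form_eq {δ : QuadraticAlgebra K n 0} (hδ : norm δ = n) {a : QuadraticAlgebra K n 0}
    (ha : a ≠ 0) {t r p s : K}
    (h : t • a + r • (δ * star a) = ω * (p • a + s • (δ * star a))) :
    t ^ 2 - n * r ^ 2 = n * (p ^ 2 - n * s ^ 2) := by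
  have h1 : δ * star a * (r • 1 + (-s) • ω) = a * ((-t) • 1 + p • ω) := by
    rw [mul_add, mul_smul_comm, mul_smul_comm] at h
    simp only [mul_add, mul_smul_comm, mul_one, neg_smul, mul_neg]
    rw [mul_comm (δ * star a) ω, mul_comm a ω]
    linear_combination (exp := 1) h
  have h2 := congrArg QuadraticAlgebra.norm h1
  rw [map_mul, map_mul, map_mul, hδ, QuadraticAlgebra.norm_star, norm_add_smul_omega, norm_add_smul_omega] at h2
  have h3 : norm a * (n * (r ^ 2 - n * (-s) ^ 2)) = norm a * ((-t) ^ 2 - n * p ^ 2) := by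
    rw [← h2]; ring
  have h4 := mul_left_cancel₀ (norm_ne_zero ha) h3
  linear_combination -h4

omit hn in
theorem omega_ne_zero : (ω : QuadraticAlgebra K n 0) ≠ 0 := by
  intro h
  have := congrArg QuadraticAlgebra.im h
  simp at this

theorem isSpread_tX {δ : QuadraticAlgebra K n 0} (hδ : norm δ = n) {X : Set K} :
    IsSpread K (QuadraticAlgebra K n 0 × QuadraticAlgebra K n 0) (tX δ X) := by
  refine ⟨?_, ?_⟩
  · rintro m (rfl | ⟨t, r, -, rfl⟩ | ⟨p, s, -, rfl⟩)
    · exact finrank_vert
    · exact finrank_gr _ _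
    · exact finrank_gr _ _
  rintro ⟨a, b⟩ hv
  by_cases ha : a = 0
  · subst ha
    have hb : b ≠ 0 := by
      rintro rfl; exact hv rfl
    refine ⟨vert n, ⟨Or.inl rfl, by rw [mem_vert]⟩, ?_⟩
    rintro m ⟨rfl | ⟨t, r, -, rfl⟩ | ⟨p, s, -, rfl⟩, hm⟩
    · rfl
    · rw [mem_gr] at hm
      simp only [mul_zero, star_zero, add_zero] at hm
      exact absurd hm hb
    · rw [mem_gr] at hm
      simp only [mul_zero, star_zero, add_zero] at hm
      exact absurd hm hb
  · obtain ⟨⟨t, r⟩, h, huniq⟩ := exUnique ha (key_indep hδ ha) b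
    obtain ⟨⟨p, s⟩, h', huniq'⟩ := exUnique ha (key_indep hδ ha) (b / ω)
    simp only at h h'
    have hω : (ω : QuadraticAlgebra K n 0) ≠ 0 := omega_ne_zero
    have h'' : b = ω * (p • a + s • (δ * star a)) := by
      rw [← h']; field_simp
    have hform := norm_form_eq hδ ha (h.symm.trans h'')
    have hgr1 : ∀ t' r' : K, ((a, b) : QuadraticAlgebra K n 0 × QuadraticAlgebra K n 0) ∈
        gr (t' • 1) (r' • δ) ↔ b = t' • a + r' • (δ * star a) := by
      intro t' r'
      rw [mem_gr]
      simp only [smul_mul_assoc, one_mul]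
    have hgr2 : ∀ p' s' : K, ((a, b) : QuadraticAlgebra K n 0 × QuadraticAlgebra K n 0) ∈
        gr (p' • ω) (s' • (ω * δ)) ↔ b / ω = p' • a + s' • (δ * star a) := by
      intro p' s'
      rw [mem_gr, div_eq_iff hω]
      simp only [smul_mul_assoc, add_mul]
      rw [mul_assoc ω δ, mul_comm ω a, mul_comm ω (δ * star a)]
    by_cases hX : t ^ 2 - n * r ^ 2 ∈ X
    · refine ⟨gr (t • 1) (r • δ), ⟨Or.inr (Or.inl ⟨t, r, hX, rfl⟩), (hgr1 t r).mpr h⟩, ?_⟩
      rintro m ⟨rfl | ⟨t', r', -, rfl⟩ | ⟨p', s', hX', rfl⟩, hm⟩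
      · rw [mem_vert] at hm
        exact absurd hm ha
      · rw [hgr1] at hm
        have := huniq (t', r') hm
        simp only [Prod.mk.injEq] at this
        rw [this.1, this.2]
      · rw [hgr2] at hm
        have := huniq' (p', s') hm
        simp only [Prod.mk.injEq] at this
        rw [this.1, this.2, ← hform] at hX'
        exact absurd hX hX'
    · refine ⟨gr (p • ω) (s • (ω * δ)), ⟨Or.inr (Or.inr ⟨p, s, by rwa [← hform], rfl⟩),
        (hgr2 p s).mpr h'⟩, ?_⟩
      rintro m ⟨rfl | ⟨t', r', hX', rfl⟩ | ⟨p', s', -, rfl⟩, hm⟩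
      · rw [mem_vert] at hm
        exact absurd hm ha
      · rw [hgr1] at hm
        have := huniq (t', r') hm
        simp only [Prod.mk.injEq] at this
        rw [this.1, this.2] at hX'
        exact absurd hX' hX
      · rw [hgr2] at hm
        have := huniq' (p', s') hm
        simp only [Prod.mk.injEq] at this
        rw [this.1, this.2]

end Pool.Agent.Y376.Packing
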