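import Pool.Agent.Y376.Packing.Family

namespace Pool.Agent.Y376.Packing

open Module QuadraticAlgebra

variable {K : Type*} [Field K] {n : K} [hn : Fact (∀ r : K, r ^ 2 ≠ n + 0 * r)]

/-- Every line through a point `(a, b)` with `a ≠ 0` is in the regular spread or in some `B i`. -/
theorem classify (h2 : (2 : K) ≠ 0) {δ : QuadraticAlgebra K n 0}
    (hδ : QuadraticAlgebra.norm δ = n)
    {m : Submodule K (QuadraticAlgebra K n 0 × QuadraticAlgebra K n 0)} (hm : finrank K m = 2)
    {a b : QuadraticAlgebra K n 0} (ha : a ≠ 0) (hv : (a, b) ∈ m) :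
    m = gr (b / a) 0 ∨ ∃ i, m ∈ B δ i := by
  have hδ0 := delta_ne_zero hδ
  have hv0 : ((a, b) : QuadraticAlgebra K n 0 × QuadraticAlgebra K n 0) ≠ 0 := by
    intro h
    exact ha (congrArg Prod.fst h)
  obtain ⟨w, hw, hws⟩ : ∃ w ∈ m, w ∉ Submodule.span K {(a, b)} := by
    by_contra hcon
    push Not at hcon
    have h1 : m ≤ Submodule.span K {(a, b)} := fun w hw => hcon w hw
    have h3 := Submodule.finrank_mono h1
    rw [finrank_span_singleton hv0, hm] at h3
    omega
  obtain ⟨c, d⟩ := w
  by_cases hc : ∃ l : K, c = l • a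
  · right
    obtain ⟨l, rfl⟩ := hc
    set y0 := d - l • b with hy0
    have hy : ((0, y0) : QuadraticAlgebra K n 0 × QuadraticAlgebra K n 0) ∈ m := by
      have := m.sub_mem hw (m.smul_mem l hv)
      simpa using this
    have hy0' : y0 ≠ 0 := by
      intro h
      apply hws
      rw [Submodule.mem_span_singleton]
      refine ⟨l, ?_⟩
      ext1
      · rfl
      · simp only [Prod.smul_mk]
        rw [hy0, sub_eq_zero] at h
        exact h.symm
    obtain ⟨o, j, l', μ, hl', h3, h4⟩ := idx_surj (n := n) (div_ne_zero hy0' ha) (b / a)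
    refine ⟨(o, j), Or.inr ⟨a, ha, ?_⟩⟩
    simp only
    symm
    apply Submodule.eq_of_le_of_finrank_eq
    · intro v' hv'
      rw [mem_mm] at hv'
      obtain ⟨s, t, h5, h6⟩ := hv'
      have h7 : uu n o * a = l'⁻¹ • y0 := by
        have : y0 = l' • (uu n o * a) := by
          rw [← smul_mul_assoc, ← h3, div_mul_cancel₀ _ ha]
        rw [this, smul_smul, inv_mul_cancel₀ hl', one_smul]
      have h8 : ee n o j * a = b - (μ * l'⁻¹) • y0 := by
        have : b = (ee n o j + μ • uu n o) * a := by
          rw [← h4, div_mul_cancel₀ _ ha]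
        rw [this, mul_smul, ← h7, add_mul, smul_mul_assoc, add_sub_cancel_right]
      have h9 : v' = s • ((a, b) - (μ * l'⁻¹) • (0, y0)) + (t * l'⁻¹) • (0, y0) := by
        ext1
        · rw [h5]; simp
        · rw [h6, h7, h8]; simp [smul_smul]
      rw [h9]
      exact m.add_mem (m.smul_mem _ (m.sub_mem hv (m.smul_mem _ hy))) (m.smul_mem _ hy)
    · rw [hm, finrank_mm ha (uu_ne_zero o)]
  · push Not at hc
    set D := star a * c - a * star c with hD
    have hD0 : D ≠ 0 := by
      intro h
      have hz : star (c / a) = c / a := by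
        rw [star_div₀, div_eq_div_iff (by simpa using ha) ha]
        rw [hD, sub_eq_zero] at h
        rw [mul_comm (star c), ← h, mul_comm]
      have hzi := congrArg QuadraticAlgebra.im hz
      rw [im_star] at hzi
      have hzi0 : (c / a).im = 0 := by
        have : (2 : K) * (c / a).im = 0 := by linear_combination -hzi
        rcases mul_eq_zero.mp this with h | h
        · exact absurd h h2
        · exact h
      apply hc (c / a).re
      have h5 : c / a = (c / a).re • (1 : QuadraticAlgebra K n 0) := by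
        ext
        · simp
        · simp [hzi0]
      have h6 : c = (c / a) * a := (div_mul_cancel₀ _ ha).symm
      rw [h5, smul_mul_assoc, one_mul] at h6
      exact h6
    obtain ⟨d', hd'⟩ : ∃ d', d' = (b * c - d * a) / D := ⟨_, rfl⟩
    obtain ⟨g, hg⟩ : ∃ g, g = (b - d' * star a) / a := ⟨_, rfl⟩
    have e1 : b = g * a + d' * star a := by
      rw [hg, div_mul_cancel₀ _ ha]; ring
    have e2 : d = g * c + d' * star c := by
      have h5 : d' * D = b * c - d * a := by rw [hd']; exact div_mul_cancel₀ _ hD0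
      have h6 : a * d = a * (g * c + d' * star c) := by
        rw [hD] at h5
        linear_combination h5 + c * e1
      exact mul_left_cancel₀ ha h6
    have hmg : m = gr g d' := by
      symm
      apply Submodule.eq_of_le_of_finrank_eq
      · intro v' hv'
        rw [mem_gr] at hv'
        obtain ⟨⟨s, t⟩, h5, -⟩ := exUnique ha hc v'.1
        simp only at h5
        have h6 : v' = s • (a, b) + t • (c, d) := by
          ext1
          · rw [h5]; rfl
          · rw [hv', h5, e1, e2]
            simp only [star_add, star_smul', Prod.smul_mk, Prod.mk_add_mk, mul_add, smul_add,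
              mul_smul_comm]
            abel
        rw [h6]
        exact m.add_mem (m.smul_mem _ hv) (m.smul_mem _ hw)
      · rw [hm, finrank_gr]
    by_cases hd0 : d' = 0
    · left
      rw [hmg, hg, hd0, zero_mul, sub_zero]
    · right
      have hu0 : star (d' / δ) ≠ 0 := by
        simpa using ⟨hd0, hδ0⟩
      obtain ⟨o, j, l', μ, hl', h3, h4⟩ := idx_surj (n := n) hu0 g
      refine ⟨(o, j), Or.inl ⟨μ, l', hl', ?_⟩⟩
      rw [hmg]
      simp only
      have h5 : d' = l' • (δ * star (uu n o)) := by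
        have h6 := congrArg star h3
        rw [star_star, star_smul'] at h6
        rw [← mul_smul_comm, ← h6]
        field_simp
      rw [← h5, h4, add_comm]

omit hn in
theorem uu_some_zero : uu n (some 0) = 1 := rfl

omit hn in
theorem uu_none_eq : uu n none = ω := rfl

omit hn in
theorem ee_zero (o : Option K) : ee n o 0 = 0 := by
  cases o <;> rfl

theorem mem_B_some {δ : QuadraticAlgebra K n 0} (hδ : QuadraticAlgebra.norm δ = n)
    {m : Submodule K (QuadraticAlgebra K n 0 × QuadraticAlgebra K n 0)}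
    (hm : m ∈ B δ (some 0, 0)) {a b : QuadraticAlgebra K n 0} (ha : a ≠ 0) (hv : (a, b) ∈ m)
    {t r : K} (htr : b = t • a + r • (δ * star a)) :
    (r ≠ 0 ∧ m = gr (t • 1) (r • δ)) ∨ (r = 0 ∧ m = mm a 0 1) := by
  obtain ⟨⟨t0, r0⟩, h, huniq⟩ := exUnique ha (key_indep hδ ha) b
  have h0 := huniq (t, r) htr
  rcases hm with ⟨t', r', hr', rfl⟩ | ⟨x, hx, rfl⟩
  · left
    simp only [uu_some_zero, ee_zero, add_zero, star_one, mul_one] at hv ⊢
    rw [mem_gr] at hv
    simp only [smul_mul_assoc, one_mul] at hv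
    have h1 := huniq (t', r') hv
    rw [← h0] at h1
    simp only [Prod.mk.injEq] at h1
    obtain ⟨rfl, rfl⟩ := h1
    exact ⟨hr', rfl⟩
  · right
    simp only [uu_some_zero, ee_zero] at hv ⊢
    rw [mem_mm] at hv
    obtain ⟨s, t', h1, h2⟩ := hv
    simp only [zero_mul, smul_zero, zero_add, one_mul] at h1 h2
    have hs : s ≠ 0 := by
      rintro rfl; rw [zero_smul] at h1; exact ha h1
    have h3 : b = (t' / s) • a + (0 : K) • (δ * star a) := by
      rw [h2, h1, smul_smul, div_mul_cancel₀ _ hs, zero_smul, add_zero]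
    have h4 := huniq (t' / s, 0) h3
    rw [← h0] at h4
    simp only [Prod.mk.injEq] at h4
    refine ⟨h4.2.symm, ?_⟩
    rw [h1, mm_smul hs]

theorem mem_B_none {δ : QuadraticAlgebra K n 0} (hδ : QuadraticAlgebra.norm δ = n)
    {m : Submodule K (QuadraticAlgebra K n 0 × QuadraticAlgebra K n 0)}
    (hm : m ∈ B δ (none, 0)) {a b : QuadraticAlgebra K n 0} (ha : a ≠ 0) (hv : (a, b) ∈ m)
    {p s : K} (hps : b = ω * (p • a + s • (δ * star a))) :
    (s ≠ 0 ∧ m = gr (p • ω) (s • (ω * δ))) ∨ (s = 0 ∧ m = mm a 0 ω) := by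
  have hω : (ω : QuadraticAlgebra K n 0) ≠ 0 := omega_ne_zero
  obtain ⟨⟨t0, r0⟩, h, huniq⟩ := exUnique ha (key_indep hδ ha) (b / ω)
  have h0 := huniq (p, s) (by simp only; rw [hps, mul_div_cancel_left₀ _ hω])
  have hsω : star (ω : QuadraticAlgebra K n 0) = -ω := by
    ext <;> simp
  rcases hm with ⟨t', r', hr', rfl⟩ | ⟨x, hx, rfl⟩
  · left
    simp only [uu_none_eq, ee_zero, add_zero, hsω] at hv ⊢
    rw [mem_gr] at hv
    simp only at hv
    have h1 := huniq (t', -r') (by
      simp only
      rw [hv, div_eq_iff hω]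
      simp only [smul_mul_assoc, mul_neg, neg_mul, smul_neg, neg_smul, add_mul]
      rw [mul_comm ω a, mul_assoc δ ω, mul_comm ω (star a), ← mul_assoc])
    rw [← h0] at h1
    simp only [Prod.mk.injEq] at h1
    obtain ⟨rfl, h1⟩ := h1
    rw [← h1]
    refine ⟨neg_ne_zero.mpr hr', ?_⟩
    rw [mul_neg, smul_neg, neg_smul, mul_comm δ ω]
  · right
    simp only [uu_none_eq, ee_zero] at hv ⊢
    rw [mem_mm] at hv
    obtain ⟨s', t', h1, h2⟩ := hv
    simp only [zero_mul, smul_zero, zero_add] at h1 h2
    have hs : s' ≠ 0 := by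
      rintro rfl; rw [zero_smul] at h1; exact ha h1
    have h4 := huniq (t' / s', 0) (by
      simp only
      rw [h2, h1, smul_smul, div_mul_cancel₀ _ hs, zero_smul, add_zero, div_eq_iff hω,
        smul_mul_assoc, mul_comm ω x])
    rw [← h0] at h4
    simp only [Prod.mk.injEq] at h4
    refine ⟨h4.2.symm, ?_⟩
    rw [h1, mm_smul hs]

end Pool.Agent.Y376.Packing
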