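import Pool.Agent.Y376.Packing.Complete

namespace Pool.Agent.Y376.Packing

open Module QuadraticAlgebra

variable {K : Type*} [Field K] {n : K} [hn : Fact (∀ r : K, r ^ 2 ≠ n + 0 * r)]

theorem point_lemma (h2 : (2 : K) ≠ 0) {δ : QuadraticAlgebra K n 0}
    (hδ : QuadraticAlgebra.norm δ = n) {X : Set K}
    {F : Set (Submodule K (QuadraticAlgebra K n 0 × QuadraticAlgebra K n 0))}
    (hF : IsSpread K (QuadraticAlgebra K n 0 × QuadraticAlgebra K n 0) F)
    (hT : Disjoint F (tX δ X))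
    (hB : ∀ i, i ≠ (some 0, 0) → i ≠ (none, 0) → Disjoint F (B δ i))
    {a b : QuadraticAlgebra K n 0} (ha : a ≠ 0) {t r p s : K}
    (h3 : b = t • a + r • (δ * star a)) (h4 : b = ω * (p • a + s • (δ * star a))) :
    ∃ m ∈ F, (a, b) ∈ m ∧ (
      (m = gr (b / a) 0 ∧ (r = 0 → t ^ 2 - n * r ^ 2 ∉ X) ∧ (s = 0 → t ^ 2 - n * r ^ 2 ∈ X)) ∨
      (m = gr (t • 1) (r • δ) ∧ r ≠ 0 ∧ t ^ 2 - n * r ^ 2 ∉ X) ∨
      (m = mm a 0 1 ∧ r = 0) ∨
      (m = gr (p • ω) (s • (ω * δ)) ∧ s ≠ 0 ∧ t ^ 2 - n * r ^ 2 ∈ X) ∨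
      (m = mm a 0 ω ∧ s = 0)) := by
  have hv0 : ((a, b) : QuadraticAlgebra K n 0 × QuadraticAlgebra K n 0) ≠ 0 := by
    intro h
    exact ha (congrArg Prod.fst h)
  have hform := norm_form_eq hδ ha (h3.symm.trans h4)
  obtain ⟨m, ⟨hmF, hvm⟩, -⟩ := hF.2 (a, b) hv0
  refine ⟨m, hmF, hvm, ?_⟩
  have hmT : m ∉ tX δ X := Set.disjoint_left.mp hT hmF
  rcases classify h2 hδ (hF.1 m hmF) ha hvm with h | ⟨i, hi⟩
  · left
    refine ⟨h, ?_, ?_⟩
    · intro hr hX
      apply hmT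
      right; left
      refine ⟨t, r, hX, ?_⟩
      have h5 : t • a = (t • (1 : QuadraticAlgebra K n 0)) * a := by
        rw [smul_mul_assoc, one_mul]
      rw [h, h3, hr, zero_smul, zero_smul, add_zero, h5, mul_div_cancel_right₀ _ ha]
    · intro hs
      by_contra hX
      apply hmT
      right; right
      refine ⟨p, s, by rwa [← hform], ?_⟩
      rw [h, h4, hs, zero_smul, zero_smul, add_zero, mul_smul_comm, mul_comm ω a, ← mul_smul_comm,
        mul_div_cancel_left₀ _ ha]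
  · right
    have hi' : i = (some 0, 0) ∨ i = (none, 0) := by
      by_contra hcon
      push Not at hcon
      exact Set.disjoint_left.mp (hB i hcon.1 hcon.2) hmF hi
    rcases hi' with rfl | rfl
    · rcases mem_B_some hδ hi ha hvm h3 with ⟨hr, h⟩ | ⟨hr, h⟩
      · left
        refine ⟨h, hr, fun hX => hmT (Or.inr (Or.inl ⟨t, r, hX, h⟩))⟩
      · right; left
        exact ⟨h, hr⟩
    · right; right
      rcases mem_B_none hδ hi ha hvm h4 with ⟨hs, h⟩ | ⟨hs, h⟩
      · left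
        refine ⟨h, hs, ?_⟩
        by_contra hX
        exact hmT (Or.inr (Or.inr ⟨p, s, by rwa [← hform], h⟩))
      · right
        exact ⟨h, hs⟩

theorem xor_of {V : Type*} [AddCommGroup V] [Module K V] {F : Set (Submodule K V)}
    (hF : IsSpread K V F) {v : V} (hv : v ≠ 0) {m m' : Submodule K V} (hm : v ∈ m) (hm' : v ∈ m')
    (hne : m ≠ m') (h : m ∈ F ∨ m' ∈ F) : m ∈ F ↔ m' ∉ F := by
  constructor
  · intro h1 h2
    exact hne ((hF.2 v hv).unique ⟨h1, hm⟩ ⟨h2, hm'⟩)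
  · intro h1
    exact h.resolve_right h1

theorem exists_omega_coeff {δ : QuadraticAlgebra K n 0} (hδ : QuadraticAlgebra.norm δ = n)
    {a : QuadraticAlgebra K n 0} (ha : a ≠ 0) (b : QuadraticAlgebra K n 0) :
    ∃ p s : K, b = ω * (p • a + s • (δ * star a)) := by
  have hω : (ω : QuadraticAlgebra K n 0) ≠ 0 := omega_ne_zero
  obtain ⟨⟨p, s⟩, h, -⟩ := exUnique ha (key_indep hδ ha) (b / ω)
  refine ⟨p, s, ?_⟩
  simp only at h
  rw [← h]; field_simp

theorem mm_one_ne_mm_omega {x : QuadraticAlgebra K n 0} (hx : x ≠ 0) : mm x 0 1 ≠ mm x 0 ω := by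
  intro h
  have : ((0, x) : QuadraticAlgebra K n 0 × QuadraticAlgebra K n 0) ∈ mm x 0 1 := by
    rw [mem_mm]
    exact ⟨0, 1, by simp, by simp⟩
  rw [h, mem_mm] at this
  obtain ⟨s, t, h1, h2⟩ := this
  simp only [zero_mul, smul_zero, zero_add] at h1 h2
  have h3 : (1 : QuadraticAlgebra K n 0) * x = (t • ω) * x := by
    rw [one_mul, smul_mul_assoc]; exact h2
  have h4 := congrArg QuadraticAlgebra.re (mul_right_cancel₀ hx h3)
  simp at h4

/-- The odd cycle argument. -/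
theorem no_spread (h2 : (2 : K) ≠ 0) {δ : QuadraticAlgebra K n 0}
    (hδ : QuadraticAlgebra.norm δ = n) {X : Set K} (h0X : (0 : K) ∉ X)
    {p p1 t1 r1 t2 p2 s2 : K} {x1 x2 x3 x4 : QuadraticAlgebra K n 0}
    (hx1 : x1 ≠ 0) (hx2 : x2 ≠ 0) (hx3 : x3 ≠ 0) (hx4 : x4 ≠ 0)
    (hp : p ≠ 0) (hr1 : r1 ≠ 0) (hs2 : s2 ≠ 0)
    (hX1 : n * p1 ^ 2 ∉ X) (hX2 : t2 ^ 2 ∈ X)
    (E1 : (1 + p • ω) * x3 = t1 • x3 + r1 • (δ * star x3))
    (E2 : p1 • (ω * x1) = t1 • x1 + r1 • (δ * star x1))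
    (E3 : t2 • x2 = ω * (p2 • x2 + s2 • (δ * star x2)))
    (E4 : (1 + p • ω) * x4 = ω * (p2 • x4 + s2 • (δ * star x4)))
    (hM : (∃ t0 : K, t0 ≠ 0 ∧ t0 ^ 2 ∉ X) ∨
      (mm x1 0 1 : Submodule K (QuadraticAlgebra K n 0 × QuadraticAlgebra K n 0)) = mm x2 0 1)
    {F : Set (Submodule K (QuadraticAlgebra K n 0 × QuadraticAlgebra K n 0))}
    (hF : IsSpread K (QuadraticAlgebra K n 0 × QuadraticAlgebra K n 0) F)
    (hT : Disjoint F (tX δ X))
    (hB : ∀ i, i ≠ (some 0, 0) → i ≠ (none, 0) → Disjoint F (B δ i)) : False := by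
  have hδ0 := delta_ne_zero hδ
  have hω : (ω : QuadraticAlgebra K n 0) ≠ 0 := omega_ne_zero
  have hne : ∀ {a : QuadraticAlgebra K n 0} (b : QuadraticAlgebra K n 0), a ≠ 0 →
      ((a, b) : QuadraticAlgebra K n 0 × QuadraticAlgebra K n 0) ≠ 0 :=
    fun b ha h => ha (congrArg Prod.fst h)
  -- the value of the form at the relevant points
  have E2' : t1 • x1 + r1 • (δ * star x1) = ω * (p1 • x1 + (0 : K) • (δ * star x1)) := by
    rw [← E2, zero_smul, add_zero, mul_smul_comm]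
  have hν1 : t1 ^ 2 - n * r1 ^ 2 ∉ X := by
    rw [norm_form_eq hδ hx1 E2']
    simpa using hX1
  have E3' : t2 • x2 + (0 : K) • (δ * star x2) = ω * (p2 • x2 + s2 • (δ * star x2)) := by
    rw [← E3, zero_smul, add_zero]
  have hν2 : t2 ^ 2 - n * 0 ^ 2 ∈ X := by simpa using hX2
  have hν2' : n * (p2 ^ 2 - n * s2 ^ 2) ∈ X := by
    rw [← norm_form_eq hδ hx2 E3']; exact hν2
  -- lines
  set G1 : Submodule K (QuadraticAlgebra K n 0 × QuadraticAlgebra K n 0) := gr (1 + p • ω) 0 with hG1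
  set H1 : Submodule K (QuadraticAlgebra K n 0 × QuadraticAlgebra K n 0) :=
    gr (t1 • 1) (r1 • δ) with hH1
  set N1 : Submodule K (QuadraticAlgebra K n 0 × QuadraticAlgebra K n 0) := mm x1 0 ω with hN1
  set M1 : Submodule K (QuadraticAlgebra K n 0 × QuadraticAlgebra K n 0) := mm x1 0 1 with hM1
  set M2 : Submodule K (QuadraticAlgebra K n 0 × QuadraticAlgebra K n 0) := mm x2 0 1 with hM2
  set H2 : Submodule K (QuadraticAlgebra K n 0 × QuadraticAlgebra K n 0) :=
    gr (p2 • ω) (s2 • (ω * δ)) with hH2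
  -- edge G1 H1
  have e1 : G1 ∈ F ↔ H1 ∉ F := by
    apply xor_of hF (hne ((1 + p • ω) * x3) hx3)
    · rw [hG1, mem_gr]; simp
    · rw [hH1, mem_gr]
      simp only [smul_mul_assoc, one_mul]
      exact E1
    · intro h
      have := (gr_inj h2 (hG1.symm.trans (h.trans hH1))).2
      exact (smul_ne_zero hr1 hδ0) this.symm
    · obtain ⟨p', s', hps⟩ := exists_omega_coeff hδ hx3 ((1 + p • ω) * x3)
      have hs' : s' ≠ 0 := by
        rintro rfl
        rw [zero_smul, add_zero, mul_smul_comm, ← smul_mul_assoc] at hps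
        have := congrArg QuadraticAlgebra.re (mul_right_cancel₀ hx3 hps)
        simp at this
      obtain ⟨m, hmF, -, h⟩ := point_lemma h2 hδ hF hT hB hx3 E1 hps
      rcases h with ⟨h, -, -⟩ | ⟨h, -, -⟩ | ⟨-, h⟩ | ⟨-, -, h⟩ | ⟨-, h⟩
      · left
        rw [hG1]
        rw [mul_div_cancel_right₀ _ hx3] at h
        rwa [← h]
      · right
        rw [hH1, ← h]; exact hmF
      · exact absurd h hr1
      · exact absurd h hν1
      · exact absurd h hs'
  -- edge H1 N1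
  have e2 : H1 ∈ F ↔ N1 ∉ F := by
    apply xor_of hF (hne (p1 • (ω * x1)) hx1)
    · rw [hH1, mem_gr]
      simp only [smul_mul_assoc, one_mul]
      exact E2
    · rw [hN1, mem_mm]
      exact ⟨1, p1, by simp, by simp⟩
    · rw [hH1, hN1]; exact not_gr_eq_mm hx1 hω
    · obtain ⟨m, hmF, -, h⟩ := point_lemma h2 hδ hF hT hB hx1 E2 (E2.trans E2')
      rcases h with ⟨-, -, h⟩ | ⟨h, -, -⟩ | ⟨-, h⟩ | ⟨-, h, -⟩ | ⟨h, -⟩
      · exact absurd (h rfl) hν1
      · left; rw [hH1, ← h]; exact hmF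
      · exact absurd h hr1
      · exact absurd rfl h
      · right; rw [hN1, ← h]; exact hmF
  -- edge N1 M1
  have e3 : N1 ∈ F ↔ M1 ∉ F := by
    apply xor_of hF (hne 0 hx1)
    · rw [hN1, mem_mm]
      exact ⟨1, 0, by simp, by simp⟩
    · rw [hM1, mem_mm]
      exact ⟨1, 0, by simp, by simp⟩
    · rw [hN1, hM1]; exact (mm_one_ne_mm_omega hx1).symm
    · obtain ⟨m, hmF, -, h⟩ := point_lemma h2 hδ hF hT hB hx1
        (show (0 : QuadraticAlgebra K n 0) = (0 : K) • x1 + (0 : K) • (δ * star x1) by simp)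
        (show (0 : QuadraticAlgebra K n 0) = ω * ((0 : K) • x1 + (0 : K) • (δ * star x1)) by simp)
      rcases h with ⟨-, -, h⟩ | ⟨-, h, -⟩ | ⟨h, -⟩ | ⟨-, h, -⟩ | ⟨h, -⟩
      · have := h rfl
        exact absurd (by simpa using this) h0X
      · exact absurd rfl h
      · right; rw [hM1, ← h]; exact hmF
      · exact absurd rfl h
      · left; rw [hN1, ← h]; exact hmF
  -- edge M2 H2
  have e6 : M2 ∈ F ↔ H2 ∉ F := by
    apply xor_of hF (hne (t2 • x2) hx2)
    · rw [hM2, mem_mm]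
      exact ⟨1, t2, by simp, by simp⟩
    · rw [hH2, mem_gr]
      simp only [smul_mul_assoc]
      rw [E3, mul_add, mul_smul_comm, mul_smul_comm, mul_assoc]
    · rw [hM2, hH2]; exact (not_gr_eq_mm hx2 one_ne_zero).symm
    · obtain ⟨m, hmF, -, h⟩ := point_lemma h2 hδ hF hT hB hx2
        (show t2 • x2 = t2 • x2 + (0 : K) • (δ * star x2) by simp) E3
      rcases h with ⟨-, h, -⟩ | ⟨-, h, -⟩ | ⟨h, -⟩ | ⟨h, -, -⟩ | ⟨-, h⟩
      · exact absurd hν2 (h rfl)
      · exact absurd rfl h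
      · left; rw [hM2, ← h]; exact hmF
      · right; rw [hH2, ← h]; exact hmF
      · exact absurd h hs2
  -- edge H2 G1
  have e7 : H2 ∈ F ↔ G1 ∉ F := by
    apply xor_of hF (hne ((1 + p • ω) * x4) hx4)
    · rw [hH2, mem_gr]
      simp only [smul_mul_assoc]
      rw [E4, mul_add, mul_smul_comm, mul_smul_comm, mul_assoc]
    · rw [hG1, mem_gr]; simp
    · intro h
      have := (gr_inj h2 (hH2.symm.trans (h.trans hG1))).2
      exact (smul_ne_zero hs2 (mul_ne_zero hω hδ0)) this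
    · obtain ⟨⟨t', r'⟩, htr, -⟩ := exUnique hx4 (key_indep hδ hx4) ((1 + p • ω) * x4)
      simp only at htr
      have hr' : r' ≠ 0 := by
        rintro rfl
        rw [zero_smul, add_zero] at htr
        have h5 : t' • x4 = (t' • (1 : QuadraticAlgebra K n 0)) * x4 := by
          rw [smul_mul_assoc, one_mul]
        rw [h5] at htr
        have := congrArg QuadraticAlgebra.im (mul_right_cancel₀ hx4 htr)
        simp at this
        exact hp this
      have hν : t' ^ 2 - n * r' ^ 2 ∈ X := by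
        rw [norm_form_eq hδ hx4 (htr.symm.trans E4)]; exact hν2'
      obtain ⟨m, hmF, -, h⟩ := point_lemma h2 hδ hF hT hB hx4 htr E4
      rcases h with ⟨h, -, -⟩ | ⟨-, -, h⟩ | ⟨-, h⟩ | ⟨h, -, -⟩ | ⟨-, h⟩
      · right
        rw [hG1]
        rw [mul_div_cancel_right₀ _ hx4] at h
        rwa [← h]
      · exact absurd hν h
      · exact absurd h hr'
      · left; rw [hH2, ← h]; exact hmF
      · exact absurd h hs2
  -- M1 and M2
  have e45 : M1 ∈ F ↔ M2 ∈ F := by
    rcases hM with ⟨t0, ht0, ht0X⟩ | h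
    · have key : ∀ x : QuadraticAlgebra K n 0, x ≠ 0 →
          ((mm x 0 1 : Submodule K (QuadraticAlgebra K n 0 × QuadraticAlgebra K n 0)) ∈ F ↔
            gr (t0 • 1) 0 ∉ F) := by
        intro x hx
        apply xor_of hF (hne (t0 • x) hx)
        · rw [mem_mm]
          exact ⟨1, t0, by simp, by simp⟩
        · rw [mem_gr]; simp
        · exact (not_gr_eq_mm hx one_ne_zero).symm
        · obtain ⟨p', s', hps⟩ := exists_omega_coeff hδ hx (t0 • x)
          have htr : t0 • x = t0 • x + (0 : K) • (δ * star x) := by simp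
          have h5 : t0 • x = (t0 • (1 : QuadraticAlgebra K n 0)) * x := by
            rw [smul_mul_assoc, one_mul]
          obtain ⟨m, hmF, -, h⟩ := point_lemma h2 hδ hF hT hB hx htr hps
          rcases h with ⟨h, -, -⟩ | ⟨-, h, -⟩ | ⟨h, -⟩ | ⟨-, -, h⟩ | ⟨-, h⟩
          · right
            rw [h5, mul_div_cancel_right₀ _ hx] at h
            rwa [← h]
          · exact absurd rfl h
          · left; rw [← h]; exact hmF
          · exact absurd (by simpa using h) ht0X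
          · exfalso
            rw [h, zero_smul, add_zero, mul_smul_comm, ← smul_mul_assoc, h5] at hps
            have := congrArg QuadraticAlgebra.re (mul_right_cancel₀ hx hps)
            simp at this
            exact ht0 this
      rw [hM1, hM2, key x1 hx1, key x2 hx2]
    · rw [h]
  have e8 : G1 ∈ F ↔ ¬ (G1 ∈ F) := by
    conv_lhs => rw [e1, e2, e3, e45, e6, e7]
    simp only [not_not]
  exact iff_not_self e8

end Pool.Agent.Y376.Packing
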