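import Mathlib

/-!
# Spreads and complete partial packings of a projective 3-space

`V` is a vector space of dimension 4 over a finite field `K`; the points of the projective space
are given by the nonzero vectors of `V`, the lines are the 2-dimensional subspaces.
-/

namespace Pool.Agent.Y376.Packing

/-- A spread of lines: a set of 2-dimensional subspaces of `V` such that every nonzero vector
(every point of the projective space) lies on exactly one of them. -/
def IsSpread (K V : Type*) [Field K] [AddCommGroup V] [Module K V]
    (S : Set (Submodule K V)) : Prop :=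
  (∀ m ∈ S, Module.finrank K m = 2) ∧ ∀ v : V, v ≠ 0 → ∃! m, m ∈ S ∧ v ∈ m

/-- `P` is a complete partial packing of deficiency `d`: a set of `q ^ 2 + q + 1 - d` pairwise
disjoint spreads such that no spread is disjoint from all of them. -/
def IsCompletePartialPacking (K V : Type*) [Field K] [AddCommGroup V] [Module K V]
    (P : Set (Set (Submodule K V))) (d : ℕ) : Prop :=
  (∀ S ∈ P, IsSpread K V S) ∧
  (∀ S ∈ P, ∀ T ∈ P, S ≠ T → Disjoint S T) ∧
  P.ncard + d = Nat.card K ^ 2 + Nat.card K + 1 ∧
  ¬ ∃ S, IsSpread K V S ∧ ∀ T ∈ P, Disjoint S T

/-- The set of positive deficiencies of complete partial packings of `PG(3, K)`. -/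
def positiveDeficiencies (K : Type*) [Field K] : Set ℕ :=
  {d | 0 < d ∧ ∃ P, IsCompletePartialPacking K (Fin 4 → K) P d}

end Pool.Agent.Y376.Packing
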