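import Pool.Agent.Y376.Packing.Blocks

namespace Pool.Agent.Y376.Packing

open Module QuadraticAlgebra

variable {K : Type*} [Field K] {n : K} [hn : Fact (∀ r : K, r ^ 2 ≠ n + 0 * r)]

theorem gr_inj (h2 : (2 : K) ≠ 0) {c d c' d' : QuadraticAlgebra K n 0} (h : gr c d = gr c' d') :
    c = c' ∧ d = d' := by
  have key : ∀ x : QuadraticAlgebra K n 0, c * x + d * star x = c' * x + d' * star x := by
    intro x
    have : ((x, c * x + d * star x) : QuadraticAlgebra K n 0 × QuadraticAlgebra K n 0) ∈ gr c d := by
      rw [mem_gr]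
    rw [h, mem_gr] at this
    exact this
  have e1 := key 1
  have e2 := key ω
  have h21 : (2 : QuadraticAlgebra K n 0) * (c - c') * ω = 0 := by
    have hs : star (ω : QuadraticAlgebra K n 0) = -ω := by
      ext <;> simp
    rw [hs] at e2
    rw [star_one] at e1
    linear_combination ω * e1 + e2
  have h2' : (2 : QuadraticAlgebra K n 0) ≠ 0 := by
    intro h
    have := congrArg QuadraticAlgebra.re h
    simp at this
    exact h2 this
  have h4 : c - c' = 0 := by
    rcases mul_eq_zero.mp h21 with h | h
    · rcases mul_eq_zero.mp h with h | h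
      · exact absurd h h2'
      · exact h
    · exact absurd h omega_ne_zero
  have hc : c = c' := sub_eq_zero.mp h4
  refine ⟨hc, ?_⟩
  rw [star_one, hc] at e1
  simpa using e1

/-- The normalised directions. -/
def uu (n : K) : Option K → QuadraticAlgebra K n 0
  | some k => ⟨1, k⟩
  | none => ⟨0, 1⟩

/-- The normalised translations. -/
def ee (n : K) : Option K → K → QuadraticAlgebra K n 0
  | some _, j => ⟨0, j⟩
  | none, j => ⟨j, 0⟩

omit hn in
theorem uu_ne_zero (o : Option K) : uu n o ≠ 0 := by
  cases o with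
  | none =>
    intro h
    have := congrArg QuadraticAlgebra.im h
    simp [uu] at this
  | some k =>
    intro h
    have := congrArg QuadraticAlgebra.re h
    simp [uu] at this

omit hn in
theorem idx_inj {o o' : Option K} {j j' : K} {l m : K} (h1 : uu n o = l • uu n o')
    (h2 : ee n o j - ee n o' j' = m • uu n o') : o = o' ∧ j = j' := by
  have h1r := congrArg QuadraticAlgebra.re h1
  have h1i := congrArg QuadraticAlgebra.im h1
  have h2r := congrArg QuadraticAlgebra.re h2
  have h2i := congrArg QuadraticAlgebra.im h2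
  cases o with
  | none =>
    cases o' with
    | none =>
      simp only [uu, ee, re_smul, im_smul, smul_eq_mul, re_sub, im_sub, mul_zero, mul_one,
        sub_self] at h1r h1i h2r h2i
      exact ⟨rfl, by linear_combination h2r⟩
    | some k =>
      simp only [uu, re_smul, im_smul, smul_eq_mul, mul_one] at h1r h1i
      rw [← h1r] at h1i
      simp at h1i
  | some k =>
    cases o' with
    | none =>
      simp only [uu, re_smul, smul_eq_mul, mul_zero] at h1r
      exact absurd h1r one_ne_zero
    | some k' =>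
      simp only [uu, ee, re_smul, im_smul, smul_eq_mul, re_sub, im_sub, mul_one,
        sub_self] at h1r h1i h2r h2i
      refine ⟨?_, ?_⟩
      · rw [← h1r, one_mul] at h1i
        rw [h1i]
      · rw [← h2r, zero_mul] at h2i
        linear_combination h2i

omit hn in
theorem idx_surj {u0 : QuadraticAlgebra K n 0} (hu : u0 ≠ 0) (g : QuadraticAlgebra K n 0) :
    ∃ (o : Option K) (j l m : K), l ≠ 0 ∧ u0 = l • uu n o ∧ g = ee n o j + m • uu n o := by
  by_cases hx : u0.re = 0
  · refine ⟨none, g.re, u0.im, g.im, ?_, ?_, ?_⟩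
    · intro h
      exact hu (QuadraticAlgebra.ext hx h)
    · ext <;> simp [uu, hx]
    · ext <;> simp [uu, ee]
  · refine ⟨some (u0.im / u0.re), g.im - g.re * (u0.im / u0.re), u0.re, g.re, hx, ?_, ?_⟩
    · ext
      · simp [uu]
      · simp only [uu, im_smul, smul_eq_mul]
        field_simp
    · ext <;> simp [uu, ee]

/-- The members of the parallelism other than the regular spread. -/
def B (δ : QuadraticAlgebra K n 0) (i : Option K × K) :
    Set (Submodule K (QuadraticAlgebra K n 0 × QuadraticAlgebra K n 0)) :=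
  blk δ (uu n i.1) (ee n i.1 i.2)

theorem delta_ne_zero {δ : QuadraticAlgebra K n 0} (hδ : QuadraticAlgebra.norm δ = n) : δ ≠ 0 := by
  rintro rfl
  rw [QuadraticAlgebra.norm_zero] at hδ
  exact n_not_sq (n := n) 0 (by rw [← hδ]; ring)

theorem not_gr_eq_mm {c d x e u : QuadraticAlgebra K n 0} (hx : x ≠ 0) (hu : u ≠ 0) :
    gr c d ≠ mm x e u := by
  intro h
  have : ((0, u * x) : QuadraticAlgebra K n 0 × QuadraticAlgebra K n 0) ∈ mm x e u := by
    rw [mem_mm]
    exact ⟨0, 1, by simp, by simp⟩
  rw [← h, mem_gr] at this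
  simp only [mul_zero, star_zero, add_zero, mul_eq_zero, hx, hu, or_self] at this

theorem blk_inter (h2 : (2 : K) ≠ 0) {δ u e u' e' : QuadraticAlgebra K n 0}
    (hδ : QuadraticAlgebra.norm δ = n) (hu : u ≠ 0) (hu' : u' ≠ 0)
    {m : Submodule K (QuadraticAlgebra K n 0 × QuadraticAlgebra K n 0)}
    (hm : m ∈ blk δ u e) (hm' : m ∈ blk δ u' e') :
    ∃ l μ : K, u = l • u' ∧ e - e' = μ • u' := by
  have hδ0 := delta_ne_zero hδ
  rcases hm with ⟨t, r, hr, rfl⟩ | ⟨x, hx, rfl⟩
  · rcases hm' with ⟨t', r', hr', h⟩ | ⟨x', hx', h⟩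
    · obtain ⟨h3, h4⟩ := gr_inj h2 h
      have h5 : u = (r' / r) • u' := by
        have h6 : δ * star (r • u) = δ * star (r' • u') := by
          rw [star_smul', star_smul', mul_smul_comm, mul_smul_comm]
          exact h4
        have h7 := star_injective (mul_left_cancel₀ hδ0 h6)
        rw [div_eq_inv_mul, mul_smul, ← h7, smul_smul, inv_mul_cancel₀ hr, one_smul]
      refine ⟨r' / r, t' - t * (r' / r), h5, ?_⟩
      rw [sub_smul, mul_smul, ← h5]
      linear_combination (exp := 1) h3
    · exact absurd h (not_gr_eq_mm hx' hu')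
  · rcases hm' with ⟨t', r', hr', h⟩ | ⟨x', hx', h⟩
    · exact absurd h.symm (not_gr_eq_mm hx hu)
    · have m1 : ((0, u * x) : QuadraticAlgebra K n 0 × QuadraticAlgebra K n 0) ∈ mm x e u := by
        rw [mem_mm]
        exact ⟨0, 1, by simp, by simp⟩
      have m2 : ((x, e * x) : QuadraticAlgebra K n 0 × QuadraticAlgebra K n 0) ∈ mm x e u := by
        rw [mem_mm]
        exact ⟨1, 0, by simp, by simp⟩
      rw [h, mem_mm] at m1 m2
      obtain ⟨s1, t1, h3, h4⟩ := m1
      obtain ⟨s2, t2, h5, h6⟩ := m2
      simp only at h3 h4 h5 h6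
      have hs1 : s1 = 0 := by
        rcases smul_eq_zero.mp h3.symm with h | h
        · exact h
        · exact absurd h hx'
      subst hs1
      have hs2 : s2 ≠ 0 := by
        rintro rfl; rw [zero_smul] at h5; exact hx h5
      rw [zero_smul, zero_add] at h4
      refine ⟨t1 / s2, t2 / s2, ?_, ?_⟩
      · apply mul_right_cancel₀ hx
        rw [h4, h5, smul_mul_assoc, mul_smul_comm, smul_smul, div_mul_cancel₀ _ hs2]
      · apply mul_right_cancel₀ hx
        rw [sub_mul, h6, h5, smul_mul_assoc, mul_smul_comm, mul_smul_comm, smul_smul,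
          div_mul_cancel₀ _ hs2, add_sub_cancel_left]

theorem B_inter (h2 : (2 : K) ≠ 0) {δ : QuadraticAlgebra K n 0}
    (hδ : QuadraticAlgebra.norm δ = n) {i i' : Option K × K}
    {m : Submodule K (QuadraticAlgebra K n 0 × QuadraticAlgebra K n 0)}
    (hm : m ∈ B δ i) (hm' : m ∈ B δ i') : i = i' := by
  obtain ⟨l, μ, h3, h4⟩ := blk_inter h2 hδ (uu_ne_zero _) (uu_ne_zero _) hm hm'
  obtain ⟨h5, h6⟩ := idx_inj h3 h4
  exact Prod.ext h5 h6

omit hn in
theorem star_uu_some (k : K) : star (uu n (some k)) = ⟨1, -k⟩ := by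
  ext <;> simp [uu]

omit hn in
theorem star_uu_none : star (uu n none) = ⟨0, -1⟩ := by
  ext <;> simp [uu]

theorem tX_inter (h2 : (2 : K) ≠ 0) {δ : QuadraticAlgebra K n 0}
    (hδ : QuadraticAlgebra.norm δ = n) {X : Set K} {i : Option K × K}
    {m : Submodule K (QuadraticAlgebra K n 0 × QuadraticAlgebra K n 0)}
    (hm : m ∈ tX δ X) (hm' : m ∈ B δ i) : i = (some 0, 0) ∨ i = (none, 0) := by
  have hδ0 := delta_ne_zero hδ
  obtain ⟨o, j⟩ := i
  rcases hm with rfl | ⟨t, r, -, rfl⟩ | ⟨p, s, -, rfl⟩
  · -- the vertical line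
    exfalso
    rcases hm' with ⟨t', r', hr', h⟩ | ⟨x', hx', h⟩
    · have : ((0, 1) : QuadraticAlgebra K n 0 × QuadraticAlgebra K n 0) ∈ vert n := by
        rw [mem_vert]
      rw [h, mem_gr] at this
      simp at this
    · have : ((x', ee n o j * x') : QuadraticAlgebra K n 0 × QuadraticAlgebra K n 0) ∈
          mm x' (ee n o j) (uu n o) := by
        rw [mem_mm]
        exact ⟨1, 0, by simp, by simp⟩
      simp only at h
      rw [← h, mem_vert] at this
      exact hx' this
  · rcases hm' with ⟨t', r', hr', h⟩ | ⟨x', hx', h⟩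
    · left
      obtain ⟨h3, h4⟩ := gr_inj h2 h
      simp only at h3 h4
      have h4' : δ * (r • 1) = δ * (r' • star (uu n o)) := by
        rw [mul_smul_comm, mul_smul_comm, mul_one]
        exact h4
      have h5 := mul_left_cancel₀ hδ0 h4'
      cases o with
      | none =>
        rw [star_uu_none] at h5
        have := congrArg QuadraticAlgebra.im h5
        simp at this
        exact absurd this hr'
      | some k =>
        rw [star_uu_some] at h5
        have h6 := congrArg QuadraticAlgebra.im h5
        simp at h6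
        have hk : k = 0 := by
          rcases h6 with h | h
          · exact absurd h hr'
          · exact h
        subst hk
        have h7 := congrArg QuadraticAlgebra.im h3
        simp [uu, ee] at h7
        rw [h7]
    · exact absurd h (not_gr_eq_mm hx' (uu_ne_zero _))
  · rcases hm' with ⟨t', r', hr', h⟩ | ⟨x', hx', h⟩
    · right
      obtain ⟨h3, h4⟩ := gr_inj h2 h
      simp only at h3 h4
      have h4' : δ * (s • ω) = δ * (r' • star (uu n o)) := by
        rw [mul_smul_comm, mul_smul_comm, mul_comm δ ω]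
        exact h4
      have h5 := mul_left_cancel₀ hδ0 h4'
      cases o with
      | none =>
        have h7 := congrArg QuadraticAlgebra.re h3
        simp [uu, ee] at h7
        rw [h7]
      | some k =>
        rw [star_uu_some] at h5
        have h6 := congrArg QuadraticAlgebra.re h5
        simp at h6
        exact absurd h6.symm hr'
    · exact absurd h (not_gr_eq_mm hx' (uu_ne_zero _))

end Pool.Agent.Y376.Packing
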