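import Pool.Agent.Y376.Packing.Cycle
import Pool.Agent.Y376.Packing.Arith

namespace Pool.Agent.Y376.Packing

open Module QuadraticAlgebra

section field

variable {K : Type*} [Field K] {n : K} [hn : Fact (∀ r : K, r ^ 2 ≠ n + 0 * r)]

theorem hilbert {δ : QuadraticAlgebra K n 0} (hδ : QuadraticAlgebra.norm δ = n)
    {c : QuadraticAlgebra K n 0} {r : K} (hr : r ≠ 0)
    (hc : QuadraticAlgebra.norm c = n * r ^ 2) :
    ∃ x : QuadraticAlgebra K n 0, x ≠ 0 ∧ c * x = r • (δ * star x) := by
  have hδ0 := delta_ne_zero hδ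
  have hrδ : r • δ ≠ 0 := smul_ne_zero hr hδ0
  set y := c / (r • δ) with hy
  have hcy : c = (r • δ) * y := by
    rw [hy]; field_simp
  have hn0 : n ≠ 0 := by
    intro h
    exact n_not_sq (n := n) 0 (by rw [h]; ring)
  have hny : QuadraticAlgebra.norm y = 1 := by
    rw [hcy, map_mul, norm_smul', hδ] at hc
    have h1 : r ^ 2 * n ≠ 0 := mul_ne_zero (pow_ne_zero 2 hr) hn0
    apply mul_left_cancel₀ h1
    rw [hc]; ring
  have hyy : y * star y = 1 := by
    rw [← algebraMap_norm_eq_mul_star, hny, map_one]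
  by_cases h1 : y = -1
  · refine ⟨ω, omega_ne_zero, ?_⟩
    have hs : star (ω : QuadraticAlgebra K n 0) = -ω := by
      ext <;> simp
    rw [hcy, h1, hs, smul_mul_assoc, smul_mul_assoc]
    congr 1
    ring
  · refine ⟨1 + star y, ?_, ?_⟩
    · intro h
      apply h1
      have h3 : star y = -1 := by
        linear_combination h
      have h4 := congrArg star h3
      rw [star_star, star_neg, star_one] at h4
      exact h4
    · rw [hcy, star_add, star_one, star_star, smul_mul_assoc, smul_mul_assoc]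
      congr 1
      linear_combination δ * hyy

omit hn in
theorem norm_omega : QuadraticAlgebra.norm (ω : QuadraticAlgebra K n 0) = -n := by
  simp [norm_def]

/-- points on the cycle -/
theorem exists_points {δ : QuadraticAlgebra K n 0} (hδ : QuadraticAlgebra.norm δ = n)
    {p p1 t1 r1 t2 p2 s2 : K} (hr1 : r1 ≠ 0) (hs2 : s2 ≠ 0)
    (ha : t1 ^ 2 - n * p1 ^ 2 = n * r1 ^ 2) (hb : (1 - t1) ^ 2 - n * p ^ 2 = n * r1 ^ 2)
    (hc : t2 ^ 2 - n * p2 ^ 2 = - n ^ 2 * s2 ^ 2)
    (hd : 1 - n * (p - p2) ^ 2 = - n ^ 2 * s2 ^ 2) :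
    ∃ x1 x2 x3 x4 : QuadraticAlgebra K n 0, x1 ≠ 0 ∧ x2 ≠ 0 ∧ x3 ≠ 0 ∧ x4 ≠ 0 ∧
      (1 + p • ω) * x3 = t1 • x3 + r1 • (δ * star x3) ∧
      p1 • (ω * x1) = t1 • x1 + r1 • (δ * star x1) ∧
      t2 • x2 = ω * (p2 • x2 + s2 • (δ * star x2)) ∧
      (1 + p • ω) * x4 = ω * (p2 • x4 + s2 • (δ * star x4)) := by
  have hn0 : n ≠ 0 := by
    intro h
    exact n_not_sq (n := n) 0 (by rw [h]; ring)
  have hω : (ω : QuadraticAlgebra K n 0) ≠ 0 := omega_ne_zero
  obtain ⟨x1, hx1, h1⟩ := hilbert hδ (c := (-t1) • 1 + p1 • ω) hr1 (by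
    rw [norm_add_smul_omega, ← ha]; ring)
  obtain ⟨x3, hx3, h3⟩ := hilbert hδ (c := (1 - t1) • 1 + p • ω) hr1 (by
    rw [norm_add_smul_omega, ← hb])
  obtain ⟨x2, hx2, h2⟩ := hilbert hδ (c := (t2 • 1 + (-p2) • ω) / ω) hs2 (by
    have h := congrArg QuadraticAlgebra.norm
      (div_mul_cancel₀ (t2 • (1 : QuadraticAlgebra K n 0) + (-p2) • ω) hω)
    rw [map_mul, norm_omega, norm_add_smul_omega] at h
    have h5 : n * QuadraticAlgebra.norm ((t2 • (1 : QuadraticAlgebra K n 0) + (-p2) • ω) / ω) =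
        n * (n * s2 ^ 2) := by
      linear_combination -h - hc
    exact mul_left_cancel₀ hn0 h5)
  obtain ⟨x4, hx4, h4⟩ := hilbert hδ (c := ((1 : K) • 1 + (p - p2) • ω) / ω) hs2 (by
    have h := congrArg QuadraticAlgebra.norm
      (div_mul_cancel₀ ((1 : K) • (1 : QuadraticAlgebra K n 0) + (p - p2) • ω) hω)
    rw [map_mul, norm_omega, norm_add_smul_omega] at h
    have h5 : n * QuadraticAlgebra.norm (((1 : K) • (1 : QuadraticAlgebra K n 0) +
        (p - p2) • ω) / ω) = n * (n * s2 ^ 2) := by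
      linear_combination -h - hd
    exact mul_left_cancel₀ hn0 h5)
  refine ⟨x1, x2, x3, x4, hx1, hx2, hx3, hx4, ?_, ?_, ?_, ?_⟩
  · rw [← h3]
    simp only [sub_smul, one_smul, add_mul, sub_mul, smul_mul_assoc, one_mul]
    ring
  · rw [← h1]
    simp only [neg_smul, add_mul, neg_mul, smul_mul_assoc, one_mul]
    ring
  · rw [← h2]
    have h5 : ω * ((t2 • (1 : QuadraticAlgebra K n 0) + (-p2) • ω) / ω * x2) =
        (t2 • (1 : QuadraticAlgebra K n 0) + (-p2) • ω) * x2 := by
      field_simp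
    rw [mul_add, h5]
    simp only [neg_smul, add_mul, neg_mul, smul_mul_assoc, one_mul, mul_smul_comm]
    ring
  · rw [← h4]
    have h5 : ω * (((1 : K) • (1 : QuadraticAlgebra K n 0) + (p - p2) • ω) / ω * x4) =
        ((1 : K) • (1 : QuadraticAlgebra K n 0) + (p - p2) • ω) * x4 := by
      field_simp
    rw [mul_add, h5]
    simp only [sub_smul, one_smul, add_mul, sub_mul, smul_mul_assoc, one_mul, mul_smul_comm]
    ring

/-- The partial packing. -/
def PP (δ : QuadraticAlgebra K n 0) (X : Set K) :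
    Set (Set (Submodule K (QuadraticAlgebra K n 0 × QuadraticAlgebra K n 0))) :=
  insert (tX δ X) (B δ '' {i | i ≠ (some 0, 0) ∧ i ≠ (none, 0)})

theorem isSpread_B {δ : QuadraticAlgebra K n 0} (hδ : QuadraticAlgebra.norm δ = n)
    (i : Option K × K) :
    IsSpread K (QuadraticAlgebra K n 0 × QuadraticAlgebra K n 0) (B δ i) :=
  isSpread_blk hδ (uu_ne_zero _)

theorem spread_nonempty {V : Type*} [AddCommGroup V] [Module K V] [Nontrivial V]
    {S : Set (Submodule K V)} (hS : IsSpread K V S) : S.Nonempty := by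
  obtain ⟨v, hv⟩ := exists_ne (0 : V)
  obtain ⟨m, hm, -⟩ := hS.2 v hv
  exact ⟨m, hm.1⟩

theorem PP_isComplete [Finite K] (h2 : (2 : K) ≠ 0) {δ : QuadraticAlgebra K n 0}
    (hδ : QuadraticAlgebra.norm δ = n) {X : Set K}
    (hno : ∀ F : Set (Submodule K (QuadraticAlgebra K n 0 × QuadraticAlgebra K n 0)),
      IsSpread K (QuadraticAlgebra K n 0 × QuadraticAlgebra K n 0) F →
      Disjoint F (tX δ X) → (∀ i, i ≠ (some 0, 0) → i ≠ (none, 0) → Disjoint F (B δ i)) → False) :
    IsCompletePartialPacking K (QuadraticAlgebra K n 0 × QuadraticAlgebra K n 0) (PP δ X) 2 := by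
  have hfin : Finite (Option K × K) := inferInstance
  have hBB : ∀ i j, i ≠ j → Disjoint (B δ i) (B δ j) := by
    intro i j hij
    rw [Set.disjoint_left]
    intro m hm hm'
    exact hij (B_inter h2 hδ hm hm')
  have hTB : ∀ i, i ≠ (some 0, 0) → i ≠ (none, 0) → Disjoint (tX δ X) (B δ i) := by
    intro i h3 h4
    rw [Set.disjoint_left]
    intro m hm hm'
    rcases tX_inter h2 hδ hm hm' with h | h
    · exact h3 h
    · exact h4 h
  have hBinj : Function.Injective (B δ : Option K × K → _) := by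
    intro i j hij
    by_contra hne
    have h3 := hBB i j hne
    rw [hij, disjoint_self] at h3
    exact (spread_nonempty (isSpread_B hδ j)).ne_empty h3
  refine ⟨?_, ?_, ?_, ?_⟩
  · rintro S (rfl | ⟨i, -, rfl⟩)
    · exact isSpread_tX hδ
    · exact isSpread_B hδ i
  · rintro S (rfl | ⟨i, hi, rfl⟩) T (rfl | ⟨j, hj, rfl⟩) hne
    · exact absurd rfl hne
    · exact hTB j hj.1 hj.2
    · exact (hTB i hi.1 hi.2).symm
    · exact hBB i j (fun h => hne (by rw [h]))
  · have hnotin : tX δ X ∉ B δ '' {i | i ≠ (some 0, 0) ∧ i ≠ (none, 0)} := by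
      rintro ⟨i, hi, h⟩
      have h3 := hTB i hi.1 hi.2
      rw [← h, disjoint_self] at h3
      exact (spread_nonempty (isSpread_B hδ i)).ne_empty h3
    rw [PP, Set.ncard_insert_of_notMem hnotin, Set.ncard_image_of_injective _ hBinj]
    have hset : {i : Option K × K | i ≠ (some 0, 0) ∧ i ≠ (none, 0)} =
        Set.univ \ {(some 0, 0), (none, 0)} := by
      ext i; simp
    rw [hset, Set.ncard_sdiff (Set.subset_univ _), Set.ncard_univ, Set.ncard_pair (by simp),
      Nat.card_prod]
    have hopt : Nat.card (Option K) = Nat.card K + 1 := Finite.card_option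
    rw [hopt]
    have hpos : 1 < Nat.card K := Finite.one_lt_card
    have h5 : (Nat.card K + 1) * Nat.card K = Nat.card K ^ 2 + Nat.card K := by ring
    rw [h5]
    have h6 : 0 < Nat.card K ^ 2 := by positivity
    omega
  · rintro ⟨F, hF, hd⟩
    apply hno F hF
    · exact hd _ (Or.inl rfl)
    · intro i h3 h4
      exact hd _ (Or.inr ⟨i, ⟨h3, h4⟩, rfl⟩)

end field

theorem exists_nonsquare_delta (K : Type*) [Field K] [Fintype K] (hodd : Odd (Fintype.card K)) :
    ∃ n : K, (∀ r : K, r ^ 2 ≠ n) ∧ ∃ a b : K, a ^ 2 - n * b ^ 2 = n := by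
  classical
  have hchar : ringChar K ≠ 2 := by
    intro h
    have := FiniteField.even_card_of_char_two h
    rw [Nat.odd_iff] at hodd
    omega
  obtain ⟨n, hn⟩ := FiniteField.exists_nonsquare hchar
  have hn0 : n ≠ 0 := by
    rintro rfl
    exact hn ⟨0, by ring⟩
  refine ⟨n, fun r h => hn ⟨r, by rw [← h]; ring⟩, ?_⟩
  have hd1 : (Polynomial.X ^ 2 - Polynomial.C n : Polynomial K).degree = 2 :=
    Polynomial.degree_X_pow_sub_C (by norm_num) n
  have hd2 : (Polynomial.C (-n) * Polynomial.X ^ 2 : Polynomial K).degree = 2 :=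
    Polynomial.degree_C_mul_X_pow 2 (neg_ne_zero.mpr hn0)
  obtain ⟨a, b, hab⟩ := FiniteField.exists_root_sum_quadratic hd1 hd2 (by
    rw [Nat.odd_iff] at hodd; exact hodd)
  refine ⟨a, b, ?_⟩
  simp only [Polynomial.eval_sub, Polynomial.eval_pow, Polynomial.eval_X, Polynomial.eval_C,
    Polynomial.eval_mul] at hab
  linear_combination hab

theorem two_ne_zero_of_odd (K : Type*) [Field K] [Fintype K] (hodd : Odd (Fintype.card K)) :
    (2 : K) ≠ 0 := by
  have hchar : ringChar K ≠ 2 := by
    intro h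
    have := FiniteField.even_card_of_char_two h
    rw [Nat.odd_iff] at hodd
    omega
  exact Ring.two_ne_zero hchar

/-- For odd `q` there is a complete partial packing of deficiency two. -/
theorem exists_deficiency_two (K : Type*) [Field K] [Fintype K] (hodd : Odd (Fintype.card K)) :
    ∃ P, IsCompletePartialPacking K (Fin 4 → K) P 2 := by
  classical
  have h2 := two_ne_zero_of_odd K hodd
  obtain ⟨n, hn, a, b, hab⟩ := exists_nonsquare_delta K hodd
  have hfact : Fact (∀ r : K, r ^ 2 ≠ n + 0 * r) := ⟨fun r => by simpa using hn r⟩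
  have hn0 : n ≠ 0 := by
    intro h
    exact hn 0 (by rw [h]; ring)
  let δ : QuadraticAlgebra K n 0 := ⟨a, b⟩
  have hδ : QuadraticAlgebra.norm δ = n := by
    simp only [norm_def, δ]
    linear_combination hab
  have hrank : finrank K (QuadraticAlgebra K n 0 × QuadraticAlgebra K n 0) = finrank K (Fin 4 → K) := by
    rw [Module.finrank_prod, finrank_L, Module.finrank_fin_fun]
  let e := LinearEquiv.ofFinrankEq (QuadraticAlgebra K n 0 × QuadraticAlgebra K n 0) (Fin 4 → K) hrank
  suffices h : ∃ X : Set K,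
      IsCompletePartialPacking K (QuadraticAlgebra K n 0 × QuadraticAlgebra K n 0) (PP δ X) 2 by
    obtain ⟨X, hX⟩ := h
    exact transport e hX
  by_cases h5 : 5 ≤ Fintype.card K
  · obtain ⟨p, p1, t1, r1, t2, p2, s2, t0, hp, hp1, hr1, hs2, ht2, ht0, ht02, ha, hb, hc, hd⟩ :=
      exists_data hodd h2 h5 hn
    obtain ⟨x1, x2, x3, x4, hx1, hx2, hx3, hx4, E1, E2, E3, E4⟩ :=
      exists_points hδ hr1 hs2 ha hb hc hd
    refine ⟨{t2 ^ 2}, PP_isComplete h2 hδ ?_⟩
    intro F hF hT hB
    refine no_spread (X := {t2 ^ 2}) h2 hδ ?_ hx1 hx2 hx3 hx4 hp hr1 hs2 ?_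
      (Set.mem_singleton _) E1 E2 E3 E4
      (Or.inl ⟨t0, ht0, fun h => ht02 (Set.mem_singleton_iff.mp h)⟩) hF hT hB
    · intro h
      exact (pow_ne_zero 2 ht2) (Set.mem_singleton_iff.mp h).symm
    · intro h
      rw [Set.mem_singleton_iff] at h
      apply hn (t2 / p1)
      field_simp
      linear_combination -h
  · -- the case of three elements
    have hcard : Fintype.card K = 3 := by
      have h6 : 1 < Fintype.card K := Fintype.one_lt_card
      rw [Nat.odd_iff] at hodd
      omega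
    have h3 : (3 : K) = 0 := by
      have := Nat.cast_card_eq_zero K
      rw [hcard] at this
      exact_mod_cast this
    have h01 : (0 : K) ≠ 1 := zero_ne_one
    have h1m : (1 : K) ≠ -1 := by
      intro h
      apply h2
      linear_combination h
    have hn1 : n = -1 := by
      by_contra hne
      have h6 : ({0, 1, -1, n} : Finset K).card ≤ 3 := by
        rw [← hcard, ← Finset.card_univ]
        exact Finset.card_le_card (Finset.subset_univ _)
      have h7 : ({0, 1, -1, n} : Finset K).card = 4 := by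
        rw [Finset.card_insert_of_notMem, Finset.card_insert_of_notMem,
          Finset.card_insert_of_notMem, Finset.card_singleton]
        · simpa using Ne.symm hne
        · simp only [Finset.mem_insert, Finset.mem_singleton, not_or]
          refine ⟨h1m, fun h => hn 1 ?_⟩
          rw [← h]; ring
        · simp only [Finset.mem_insert, Finset.mem_singleton, not_or]
          refine ⟨h01, ?_, Ne.symm hn0⟩
          intro h
          exact one_ne_zero (neg_eq_zero.mp h.symm)
      omega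
    obtain ⟨x1, x2, x3, x4, hx1, hx2, hx3, hx4, E1, E2, E3, E4⟩ :=
      exists_points hδ (p := 1) (p1 := 1) (t1 := -1) (r1 := 1) (t2 := -1) (p2 := -1) (s2 := 1)
        one_ne_zero one_ne_zero (by rw [hn1]; linear_combination h3)
        (by rw [hn1]; linear_combination 2 * h3) (by rw [hn1]; linear_combination h3)
        (by rw [hn1]; linear_combination 2 * h3)
    refine ⟨{1}, PP_isComplete h2 hδ ?_⟩
    intro F hF hT hB
    refine no_spread h2 hδ (p1 := 1) (t2 := -1) (x2 := x1) ?_ hx1 hx1 hx3 hx4 one_ne_zero one_ne_zero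
      one_ne_zero ?_ ?_ E1 E2 ?_ E4 (Or.inr rfl) hF hT hB
    · intro h
      exact h01 (Set.mem_singleton_iff.mp h)
    · intro h
      rw [Set.mem_singleton_iff, hn1] at h
      apply h1m
      linear_combination -h
    · simp
    · have hωω : (ω : QuadraticAlgebra K n 0) * ω = -1 := by
        rw [omega_mul_omega_eq_mk]
        ext
        · simp [hn1]
        · simp
      simp only [one_smul, neg_smul] at E2 ⊢
      linear_combination ω * E2 - x1 * hωω

end Pool.Agent.Y376.Packing
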